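import Pool.Agent.Lib.MP_e825aa_al.AdelicSL2

section

/-!
# Closed subgroups of `SL(2, ℝ) × SL(2, A_f)` containing the rational points
-/

set_option linter.unusedSimpArgs false

open Matrix Matrix.SpecialLinearGroup
open scoped MatrixGroups RestrictedProduct
open Filter Topology

namespace Pool.Agent.Lib.MP_e825aa_al

instance : IsTopologicalRing Af := inferInstance
instance : IsTopologicalGroup SL(2, Af) := inferInstance
instance : T2Space Af := inferInstance

lemma continuous_conj {G : Type*} [Group G] [TopologicalSpace G] [IsTopologicalGroup G] (a : G) :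
    Continuous (fun g : G => g * a * g⁻¹) :=
  (continuous_id.mul continuous_const).mul continuous_id.inv

/-- the ambient group before dividing by the center -/
abbrev GG : Type := SL(2, ℝ) × SL(2, Af)

/-- the diagonal embedding of `SL(2, ℚ)` -/
noncomputable def H0 : SL(2, ℚ) →* GG :=
  (SpecialLinearGroup.map (algebraMap ℚ ℝ)).prod diagSL

/-- rational points in `SL(2, ℝ)` -/
noncomputable def realSL : SL(2, ℚ) →* SL(2, ℝ) := SpecialLinearGroup.map (algebraMap ℚ ℝ)

lemma H0_apply (γ : SL(2, ℚ)) : H0 γ = (realSL γ, diagSL γ) := rfl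

lemma realSL_apply (γ : SL(2, ℚ)) (i j : Fin 2) : realSL γ i j = ((γ i j : ℚ) : ℝ) := rfl

lemma realSL_uu (q : ℚ) : realSL (uu q) = uu (q : ℝ) := by
  apply sl2_ext <;> simp [realSL_apply]

lemma realSL_ll (q : ℚ) : realSL (ll q) = ll (q : ℝ) := by
  apply sl2_ext <;> simp [realSL_apply]

lemma H0_uu (q : ℚ) : H0 (uu q) = (uu (q : ℝ), uu (diag q)) := by
  rw [H0_apply, realSL_uu, diagSL_uu]

lemma H0_ww : H0 ww = (ww, ww) := by
  simp only [ww, map_mul, H0_apply, realSL_uu, realSL_ll, diagSL_uu, diagSL_ll, Prod.mk_mul_mk,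
    map_neg, map_one, Rat.cast_neg, Rat.cast_one]

lemma center_prod_mem {g : SL(2, ℝ)} {h : SL(2, Af)} (hg : g ∈ Subgroup.center SL(2, ℝ))
    (hh : h ∈ Subgroup.center SL(2, Af)) : (g, h) ∈ Subgroup.center GG := by
  rw [Subgroup.mem_center_iff] at hg hh ⊢
  rintro ⟨a, b⟩
  rw [Prod.mk_mul_mk, Prod.mk_mul_mk, hg, hh]

lemma center_prod_iff {g : SL(2, ℝ)} {h : SL(2, Af)} : (g, h) ∈ Subgroup.center GG ↔
    g ∈ Subgroup.center SL(2, ℝ) ∧ h ∈ Subgroup.center SL(2, Af) := by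
  constructor
  · intro H
    rw [Subgroup.mem_center_iff] at H
    constructor
    · rw [Subgroup.mem_center_iff]
      intro a
      exact congrArg Prod.fst (H (a, 1))
    · rw [Subgroup.mem_center_iff]
      intro b
      exact congrArg Prod.snd (H (1, b))
  · rintro ⟨h1, h2⟩
    exact center_prod_mem h1 h2

/-- The additive group of pairs `(x, y)` with `(uu x, uu y) ∈ K`. -/
def unipSub (K : Subgroup GG) : AddSubgroup (ℝ × Af) where
  carrier := {v | ((uu v.1, uu v.2) : GG) ∈ K}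
  add_mem' := by
    intro a b ha hb
    have := K.mul_mem ha hb
    rw [Prod.mk_mul_mk, ← uu_add, ← uu_add] at this
    exact this
  zero_mem' := by
    change ((uu 0, uu 0) : GG) ∈ K
    rw [uu_zero, uu_zero]
    exact K.one_mem
  neg_mem' := by
    intro a ha
    have := K.inv_mem ha
    rw [Prod.inv_mk, ← uu_neg, ← uu_neg] at this
    exact this

lemma mem_unipSub {K : Subgroup GG} {x : ℝ} {y : Af} :
    (x, y) ∈ unipSub K ↔ ((uu x, uu y) : GG) ∈ K := Iff.rfl

lemma isClosed_unipSub {K : Subgroup GG} (hK : IsClosed (K : Set GG)) :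
    IsClosed (unipSub K : Set (ℝ × Af)) :=
  hK.preimage ((continuous_uu.comp continuous_fst).prodMk (continuous_uu.comp continuous_snd))

/-! ### Rows and the Euclidean algorithm -/

/-- integral matrices in `SL(2, ℚ)` -/
def intSL (a b c d : ℤ) (h : a * d - b * c = 1) : SL(2, ℚ) :=
  ⟨!![(a : ℚ), b; c, d], by
    rw [Matrix.det_fin_two_of]
    exact_mod_cast h⟩

lemma diag_int_mem (n : ℤ) : diag (n : ℚ) ∈ Zhat := by
  intro p
  rw [diag_apply, Rat.cast_intCast]
  exact Padic.norm_int_le_one n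

lemma diagSL_intSL_mem (a b c d : ℤ) (h : a * d - b * c = 1) : diagSL (intSL a b c d h) ∈ SLZ := by
  intro i j
  fin_cases i <;> fin_cases j
  · exact diag_int_mem a
  · exact diag_int_mem b
  · exact diag_int_mem c
  · exact diag_int_mem d

/-- the group generated by two real numbers -/
def rowGroup (c d : ℝ) : AddSubgroup ℝ where
  carrier := {s | ∃ x y : ℤ, s = c * x + d * y}
  add_mem' := by
    rintro a b ⟨x, y, rfl⟩ ⟨x', y', rfl⟩
    exact ⟨x + x', y + y', by push_cast; ring⟩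
  zero_mem' := ⟨0, 0, by simp⟩
  neg_mem' := by
    rintro a ⟨x, y, rfl⟩
    exact ⟨-x, -y, by push_cast; ring⟩

lemma rows_cyclic {c d : ℝ} (hcd : ¬ (c = 0 ∧ d = 0)) {r : ℝ}
    (h : rowGroup c d = AddSubgroup.closure {r}) :
    ∃ (x y z w : ℤ), x * w - y * z = 1 ∧ c * x + d * z = 0 := by
  have hr : r ∈ rowGroup c d := by rw [h]; exact AddSubgroup.subset_closure rfl
  have hc : c ∈ rowGroup c d := ⟨1, 0, by simp⟩
  have hd : d ∈ rowGroup c d := ⟨0, 1, by simp⟩
  rw [h, AddSubgroup.mem_closure_singleton] at hc hd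
  obtain ⟨c0, hc0⟩ := hc
  obtain ⟨d0, hd0⟩ := hd
  obtain ⟨x, y, hxy⟩ := hr
  rw [zsmul_eq_mul] at hc0 hd0
  have hr0 : r ≠ 0 := by
    rintro rfl
    apply hcd
    rw [← hc0, ← hd0]
    simp
  have h1 : (c0 : ℝ) * x + d0 * y = 1 := by
    have : r * ((c0 : ℝ) * x + d0 * y) = r * 1 := by
      rw [← hc0, ← hd0] at hxy
      linear_combination -hxy
    exact mul_left_cancel₀ hr0 this
  refine ⟨d0, x, -c0, y, ?_, ?_⟩
  · have : ((d0 * y - x * -c0 : ℤ) : ℝ) = 1 := by
      push_cast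
      linear_combination h1
    exact_mod_cast this
  · rw [← hc0, ← hd0]
    push_cast
    ring

lemma rows_dense {c d : ℝ} (h : Dense (rowGroup c d : Set ℝ)) {ε : ℝ} (hε : 0 < ε) :
    ∃ (x y z w : ℤ), x * w - y * z = 1 ∧ |c * x + d * z| < ε ∧ |c * y + d * w - 2| < ε := by
  obtain ⟨s, hs, hs'⟩ := h.exists_mem_open isOpen_Ioo (Set.nonempty_Ioo.mpr hε)
  obtain ⟨x, z, rfl⟩ := hs
  have hxz : ¬ (x = 0 ∧ z = 0) := by
    rintro ⟨rfl, rfl⟩
    simp at hs'
  have hgpos : 0 < Int.gcd x z := by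
    rw [Int.gcd_pos_iff]
    by_contra hcon
    push Not at hcon
    exact hxz hcon
  obtain ⟨x', z', hcop, hx', hz'⟩ := Int.exists_gcd_one hgpos
  generalize hg : Int.gcd x z = g at hx' hz' hgpos
  obtain ⟨u, v, huv⟩ := Int.isCoprime_iff_gcd_eq_one.mpr hcop
  -- u * x' + v * z' = 1
  set s' : ℝ := c * x' + d * z' with hs'def
  have hgs : c * x + d * z = g * s' := by
    have e1 : (x : ℝ) = x' * g := by exact_mod_cast hx'
    have e2 : (z : ℝ) = z' * g := by exact_mod_cast hz'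
    rw [e1, e2, hs'def]; ring
  rw [hgs] at hs'
  have hg1 : (1 : ℝ) ≤ g := by exact_mod_cast hgpos
  have hs0 : 0 < s' := by
    by_contra hcon
    push Not at hcon
    have := hs'.1
    nlinarith
  have hsε : s' < ε := by
    have := hs'.2
    nlinarith
  set e2 : ℝ := c * (-v) + d * u with he2
  set n : ℤ := round ((2 - e2) / s') with hn
  have hround : |(2 - e2) / s' - n| ≤ 1 / 2 := abs_sub_round _
  refine ⟨x', -v + n * x', z', u + n * z', ?_, ?_, ?_⟩
  · linear_combination huv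
  · rw [abs_of_pos hs0]
    exact hsε
  · push_cast
    have : c * (-(v : ℝ) + n * x') + d * (u + n * z') - 2 = - s' * ((2 - e2) / s' - n) := by
      have h3 : s' * ((2 - e2) / s') = 2 - e2 := mul_div_cancel₀ _ hs0.ne'
      rw [he2] at h3 ⊢
      rw [hs'def] at h3 ⊢
      linear_combination h3
    rw [this, abs_mul, abs_neg, abs_of_pos hs0]
    have h2 : 0 ≤ |(2 - e2) / s' - n| := abs_nonneg _
    nlinarith

section main

variable (K : Subgroup GG) (hK : IsClosed (K : Set GG)) (hQ : ∀ γ, H0 γ ∈ K)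

include hQ in
lemma conj_ww {x : ℝ} {y : Af} (h : ((uu x, uu y) : GG) ∈ K) : ((ll (-x), ll (-y)) : GG) ∈ K := by
  have h1 := K.mul_mem (K.mul_mem (hQ ww) h) (K.inv_mem (hQ ww))
  rw [H0_ww, Prod.mk_mul_mk, Prod.inv_mk, Prod.mk_mul_mk, ww_conj, ww_conj] at h1
  exact h1

include hK hQ in
/-- If `K` contains the unipotent elements of one factor then it is everything. -/
lemma top_of_unip (p : Nat.Primes) (hp : ∀ z : ℚ_[p.1], ((1, uu (sg p z)) : GG) ∈ K) : K = ⊤ := by
  have hX : unipSub K = ⊤ := by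
    apply closed_eq_top _ (isClosed_unipSub hK) _ p
    · intro z
      rw [mem_unipSub, uu_zero]
      exact hp z
    · intro q
      rw [mem_unipSub, ← H0_uu]
      exact hQ _
  have hu : ∀ (x : ℝ) (y : Af), ((uu x, uu y) : GG) ∈ K := by
    intro x y
    rw [← mem_unipSub, hX]
    trivial
  have hl : ∀ (x : ℝ) (y : Af), ((ll x, ll y) : GG) ∈ K := by
    intro x y
    have := conj_ww K hQ (hu (-x) (-y))
    rwa [neg_neg, neg_neg] at this
  have h1 : K.comap (MonoidHom.inl SL(2, ℝ) SL(2, Af)) = ⊤ := by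
    apply eq_top_of_elementary (SR1_of_field ℝ)
    · intro x
      have := hu x 0
      rw [uu_zero] at this
      exact this
    · intro x
      have := hl x 0
      rw [ll_zero] at this
      exact this
  have h2 : K.comap (MonoidHom.inr SL(2, ℝ) SL(2, Af)) = ⊤ := by
    apply eq_top_of_elementary SR1_Af
    · intro x
      have := hu 0 x
      rw [uu_zero] at this
      exact this
    · intro x
      have := hl 0 x
      rw [ll_zero] at this
      exact this
  rw [eq_top_iff]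
  rintro ⟨g, h⟩ _
  have hg : g ∈ K.comap (MonoidHom.inl SL(2, ℝ) SL(2, Af)) := by rw [h1]; trivial
  have hh : h ∈ K.comap (MonoidHom.inr SL(2, ℝ) SL(2, Af)) := by rw [h2]; trivial
  have := K.mul_mem hg hh
  simpa using this

include hK hQ in
/-- (4a) -/
lemma top_or_central (hne : K ≠ ⊤) (n : SL(2, Af)) (hn : ((1, n) : GG) ∈ K) :
    n ∈ Subgroup.center SL(2, Af) := by
  by_contra hnc
  apply hne
  set Kf : Subgroup SL(2, Af) := K.comap (MonoidHom.inr SL(2, ℝ) SL(2, Af)) with hKf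
  have hKfcl : IsClosed (Kf : Set SL(2, Af)) :=
    hK.preimage (Continuous.prodMk continuous_const continuous_id)
  have hnormal : Kf.Normal := by
    constructor
    intro a ha g
    have hcl : IsClosed {g : SL(2, Af) | g * a * g⁻¹ ∈ Kf} :=
      hKfcl.preimage (continuous_conj a)
    have hsub : Set.range diagSL ⊆ {g : SL(2, Af) | g * a * g⁻¹ ∈ Kf} := by
      rintro _ ⟨γ, rfl⟩
      have h1 := K.mul_mem (K.mul_mem (hQ γ) ha) (K.inv_mem (hQ γ))
      rw [H0_apply] at h1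
      have h2 : ((realSL γ, diagSL γ) : GG) * (MonoidHom.inr SL(2, ℝ) SL(2, Af)) a *
          ((realSL γ, diagSL γ) : GG)⁻¹ =
          (MonoidHom.inr SL(2, ℝ) SL(2, Af)) (diagSL γ * a * (diagSL γ)⁻¹) := by
        simp
      rw [h2] at h1
      exact h1
    have h3 := closure_minimal hsub hcl
    rw [denseRange_diagSL.closure_range] at h3
    exact h3 (Set.mem_univ g)
  rw [central_iff_evSL] at hnc
  push Not at hnc
  obtain ⟨p, hp⟩ := hnc
  have hN : (Kf.comap (io p)).Normal := hnormal.comap _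
  have htop : Kf.comap (io p) = ⊤ := by
    apply eq_top_of_commutators _ hp
    intro m
    rw [Subgroup.mem_comap, io_commutator]
    have h4 : io p m * n * (io p m)⁻¹ ∈ Kf := hnormal.conj_mem n hn (io p m)
    exact Kf.mul_mem h4 (Kf.inv_mem hn)
  apply top_of_unip K hK hQ p
  intro z
  have : (uu z : SL(2, ℚ_[p.1])) ∈ Kf.comap (io p) := by rw [htop]; trivial
  rw [Subgroup.mem_comap, io_uu] at this
  exact this

include hQ in
lemma rat_mem_unipSub (q : ℚ) : ((q : ℝ), diag q) ∈ unipSub K := by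
  rw [mem_unipSub, ← H0_uu]
  exact hQ _

/-- the projection to `ℝ` of the integral part of `unipSub K` -/
def projS (K : Subgroup GG) : AddSubgroup ℝ where
  carrier := {x | ∃ y ∈ Zhat, (x, y) ∈ unipSub K}
  add_mem' := by
    rintro a b ⟨y, hy, hay⟩ ⟨z, hz, hbz⟩
    exact ⟨y + z, Zhat.add_mem hy hz, (unipSub K).add_mem hay hbz⟩
  zero_mem' := ⟨0, Zhat.zero_mem, (unipSub K).zero_mem⟩
  neg_mem' := by
    rintro a ⟨y, hy, hay⟩
    exact ⟨-y, Zhat.neg_mem hy, (unipSub K).neg_mem hay⟩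

instance : CompactSpace Zhat := isCompact_iff_compactSpace.mp isCompact_Zhat

include hK in
lemma isClosed_projS : IsClosed (projS K : Set ℝ) := by
  have h1 : IsClosed {v : ℝ × Zhat | (v.1, (v.2 : Af)) ∈ unipSub K} :=
    (isClosed_unipSub hK).preimage
      (continuous_fst.prodMk (continuous_subtype_val.comp continuous_snd))
  have h2 : (projS K : Set ℝ) = Prod.fst '' {v : ℝ × Zhat | (v.1, (v.2 : Af)) ∈ unipSub K} := by
    ext x
    constructor
    · rintro ⟨y, hy, h⟩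
      exact ⟨(x, ⟨y, hy⟩), h, rfl⟩
    · rintro ⟨⟨x', y⟩, h, rfl⟩
      exact ⟨y, y.2, h⟩
  rw [h2]
  exact isClosedMap_fst_of_compactSpace _ h1

variable (hcen : ∀ n : SL(2, Af), ((1, n) : GG) ∈ K → n ∈ Subgroup.center SL(2, Af))

include hcen in
lemma eq_zero_of_mem {y : Af} (h : ((0 : ℝ), y) ∈ unipSub K) : y = 0 := by
  rw [mem_unipSub, uu_zero] at h
  have := hcen _ h
  rw [mem_center_iff'] at this
  exact this.1

include hQ hcen in
lemma natAbs_eq_one (m : ℤ) (hm : m ≠ 0) (h : (1 / (m : ℝ)) ∈ projS K) : m.natAbs = 1 := by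
  obtain ⟨y, hy, hxy⟩ := h
  have h1 := (unipSub K).zsmul_mem hxy m
  have h2 := (unipSub K).sub_mem h1 (rat_mem_unipSub K hQ 1)
  have hm' : (m : ℝ) ≠ 0 := by exact_mod_cast hm
  have h3 : m • ((1 / (m : ℝ)), y) - (((1 : ℚ) : ℝ), diag 1) = ((0 : ℝ), m • y - 1) := by
    rw [Prod.smul_mk, Prod.mk_sub_mk, map_one, zsmul_eq_mul, mul_one_div_cancel hm', Rat.cast_one,
      sub_self]
  rw [h3] at h2
  have h4 := eq_zero_of_mem K hcen h2
  by_contra hne
  obtain ⟨l, hl⟩ : ∃ l : Nat.Primes, l.1 ∣ m.natAbs := by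
    obtain ⟨p, hp, hpm⟩ := Nat.exists_prime_and_dvd hne
    exact ⟨⟨p, hp⟩, hpm⟩
  have h5 : m • y = 1 := by rwa [sub_eq_zero] at h4
  have h6 : ((m : ℚ_[l.1])) * (y l) = 1 := by
    have h8 := congrArg (fun x : Af => x l) h5
    rw [zsmul_eq_mul] at h8
    have h7 : ((m : Af)) l = (m : ℚ_[l.1]) := by
      rw [← map_intCast diag, diag_apply, Rat.cast_intCast]
    simp only [mul_apply, h7, one_apply] at h8
    exact h8
  have h8 : ‖(m : ℚ_[l.1])‖ < 1 := by
    rw [Padic.norm_intCast_lt_one_iff]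
    exact Int.natCast_dvd.mpr hl
  have h9 := congrArg norm h6
  rw [norm_mul, norm_one] at h9
  have h10 : ‖y l‖ ≤ 1 := hy l
  have h11 : 0 ≤ ‖(m : ℚ_[l.1])‖ := norm_nonneg _
  nlinarith [mul_le_of_le_one_right h11 h10]

include hK hQ hcen in
lemma unip_integral {x : ℝ} {y : Af} (hy : y ∈ Zhat) (h : (x, y) ∈ unipSub K) :
    ∃ n : ℤ, x = n ∧ y = diag n := by
  have hxS : x ∈ projS K := ⟨y, hy, h⟩
  have h1S : (1 : ℝ) ∈ projS K := ⟨diag 1, by rw [map_one]; exact Zhat.one_mem, by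
    have := rat_mem_unipSub K hQ 1
    rwa [Rat.cast_one] at this⟩
  have hx : ∃ n : ℤ, x = n := by
    rcases AddSubgroup.dense_or_cyclic (projS K) with hd | ⟨a, ha⟩
    · exfalso
      have : (projS K : Set ℝ) = Set.univ := by
        rw [← (isClosed_projS K hK).closure_eq]
        exact hd.closure_eq
      have h2 : (1 / ((2 : ℤ) : ℝ)) ∈ projS K := by
        have : (1 / ((2 : ℤ) : ℝ)) ∈ (projS K : Set ℝ) := by rw [this]; trivial
        exact this
      have := natAbs_eq_one K hQ hcen 2 two_ne_zero h2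
      norm_num at this
    · rw [ha, AddSubgroup.mem_closure_singleton] at h1S hxS
      obtain ⟨m, hm⟩ := h1S
      obtain ⟨k, hk⟩ := hxS
      rw [zsmul_eq_mul] at hm hk
      have hm0 : m ≠ 0 := by
        rintro rfl
        simp at hm
      have hm0' : (m : ℝ) ≠ 0 := by exact_mod_cast hm0
      have ha' : a = 1 / (m : ℝ) := by
        rw [eq_div_iff hm0', mul_comm]; exact hm
      have haS : (1 / (m : ℝ)) ∈ projS K := by
        rw [← ha', ha]
        exact AddSubgroup.subset_closure rfl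
      have h2 := natAbs_eq_one K hQ hcen m hm0 haS
      rw [Int.natAbs_eq_iff] at h2
      rcases h2 with rfl | rfl
      · refine ⟨k, ?_⟩
        rw [← hk, ha']
        simp
      · refine ⟨-k, ?_⟩
        rw [← hk, ha']
        simp
  obtain ⟨n, rfl⟩ := hx
  refine ⟨n, rfl, ?_⟩
  have h2 := (unipSub K).sub_mem h (rat_mem_unipSub K hQ n)
  rw [Prod.mk_sub_mk, Rat.cast_intCast, sub_self] at h2
  have := eq_zero_of_mem K hcen h2
  rwa [sub_eq_zero] at this

include hK hQ hcen in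
/-- (4b) -/
lemma integral_of_uu (hZ : Subgroup.center GG ≤ K) {x : ℝ} {h : SL(2, Af)} (hh : h ∈ SLZ)
    (hk : ((uu x, h) : GG) ∈ K) :
    ∃ n : ℤ, x = n ∧ ∃ z ∈ Subgroup.center GG, ((uu x, h) : GG) = z * H0 (uu (n : ℚ)) := by
  -- the commutator with `uu 1` is central
  have h1 := K.mul_mem (K.mul_mem hk (hQ (uu 1))) (K.mul_mem (K.inv_mem hk) (K.inv_mem (hQ (uu 1))))
  have h2 : ((uu x, h) : GG) * H0 (uu 1) * (((uu x, h) : GG)⁻¹ * (H0 (uu 1))⁻¹) =
      ((1, h * uu 1 * (h⁻¹ * (uu 1)⁻¹)) : GG) := by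
    rw [H0_uu]
    simp only [Prod.mk_mul_mk, Prod.inv_mk, map_one, Rat.cast_one, Prod.mk.injEq, and_true]
    rw [← uu_add, add_comm, uu_add]
    group
  rw [h2] at h1
  have h3 := hcen _ h1
  set c := h * uu 1 * (h⁻¹ * (uu 1)⁻¹) with hc
  rw [mem_center_iff'] at h3
  obtain ⟨c1, c2, c3⟩ := h3
  have hcu : c * uu 1 = h * uu 1 * h⁻¹ := by rw [hc]; group
  have hdet := det_eq h
  -- trace computation
  have e00 := congrArg (fun g : SL(2, Af) => g 0 0) hcu
  have e11 := congrArg (fun g : SL(2, Af) => g 1 1) hcu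
  have e01 := congrArg (fun g : SL(2, Af) => g 0 1) hcu
  have e10 := congrArg (fun g : SL(2, Af) => g 1 0) hcu
  simp only [mul_00, mul_01, mul_10, mul_11, uu_00, uu_01, uu_10, uu_11, inv_00, inv_01, inv_10,
    inv_11, c1, c2, mul_one, mul_zero, zero_mul, add_zero, zero_add] at e00 e11 e01 e10
  have htr : (2 : Af) * (c 0 0 - 1) = 0 := by
    linear_combination e00 + e11 + c3 + 2 * hdet
  have hc1 : c 0 0 = 1 := by
    have : ∀ z : Af, 2 * z = 0 → z = 0 := by
      intro z hz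
      ext p
      have h4 := congrArg (fun x : Af => x p) hz
      have h5 : (2 : Af) p = (2 : ℚ_[p.1]) := rfl
      simp only [mul_apply, h5, zero_apply] at h4
      exact (mul_eq_zero.mp h4).resolve_left two_ne_zero
    exact sub_eq_zero.mp (this _ htr)
  have hc_one : c = 1 := by
    apply sl2_ext
    · rw [hc1, one_00]
    · rw [c1, one_01]
    · rw [c2, one_10]
    · rw [← c3, hc1, one_11]
  have hcomm : h * uu 1 = uu 1 * h := by
    have : uu 1 * h = c * uu 1 * h := by rw [hc_one, one_mul]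
    rw [this, hcu]; group
  have f00 := congrArg (fun g : SL(2, Af) => g 0 0) hcomm
  have f01 := congrArg (fun g : SL(2, Af) => g 0 1) hcomm
  simp only [mul_00, mul_01, mul_10, mul_11, uu_00, uu_01, uu_10, uu_11] at f00 f01
  have h10 : h 1 0 = 0 := by linear_combination -f00
  have h11 : h 0 0 = h 1 1 := by linear_combination f01
  rw [h10, ← h11, mul_zero, sub_zero] at hdet
  set y : Af := h 0 0 * h 0 1 with hy
  set zc : SL(2, Af) := h * uu (-y) with hzc
  have hzcen : zc ∈ Subgroup.center SL(2, Af) := by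
    rw [mem_center_iff']
    refine ⟨?_, ?_, ?_⟩
    · rw [hzc, mul_01, uu_01, uu_11, hy]
      linear_combination (- h 0 1) * hdet
    · rw [hzc, mul_10, uu_00, uu_10, h10]; ring
    · rw [hzc, mul_00, mul_11, uu_00, uu_10, uu_01, uu_11, h10, ← h11]; ring
  have hz1 : ((1, zc) : GG) ∈ Subgroup.center GG :=
    center_prod_mem (Subgroup.one_mem _) hzcen
  have hh2 : h = zc * uu y := by
    rw [hzc, uu_neg]; group
  have hmem : (x, y) ∈ unipSub K := by
    rw [mem_unipSub]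
    have := K.mul_mem (K.inv_mem (hZ hz1)) hk
    rw [Prod.inv_mk, Prod.mk_mul_mk, inv_one, one_mul, hh2] at this
    rwa [inv_mul_cancel_left] at this
  have hyZ : y ∈ Zhat := Zhat.mul_mem (hh 0 0) (hh 0 1)
  obtain ⟨n, hn, hyn⟩ := unip_integral K hK hQ hcen hyZ hmem
  refine ⟨n, hn, (1, zc), hz1, ?_⟩
  rw [H0_uu, Prod.mk_mul_mk, one_mul, ← hyn, ← hh2, hn, Rat.cast_intCast]

lemma uu_one_mem_SLZ : (uu 1 : SL(2, Af)) ∈ SLZ := by
  intro i j
  fin_cases i <;> fin_cases j
  · exact Zhat.one_mem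
  · exact Zhat.one_mem
  · exact Zhat.zero_mem
  · exact Zhat.one_mem

lemma conj_uu_one {g : SL(2, ℝ)} (hg : g 1 0 = 0) : g * uu 1 * g⁻¹ = uu (g 0 0 ^ 2) := by
  have hdet := det_eq g
  rw [hg, mul_zero, sub_zero] at hdet
  apply sl2_ext <;> simp only [mul_00, mul_01, mul_10, mul_11, uu_00, uu_01, uu_10, uu_11,
    inv_00, inv_01, inv_10, inv_11, hg]
  · linear_combination hdet
  · ring
  · ring
  · linear_combination hdet

include hK hQ hcen in
lemma sq_int (hZ : Subgroup.center GG ≤ K) {g : SL(2, ℝ)} {h : SL(2, Af)} (hh : h ∈ SLZ)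
    (hk : ((g, h) : GG) ∈ K) (hg : g 1 0 = 0) : ∃ n : ℤ, g 0 0 ^ 2 = n := by
  have h1 := K.mul_mem (K.mul_mem hk (hQ (uu 1))) (K.inv_mem hk)
  rw [H0_uu, Prod.inv_mk, Prod.mk_mul_mk, Prod.mk_mul_mk, Rat.cast_one, map_one,
    conj_uu_one hg] at h1
  obtain ⟨n, hn, _⟩ := integral_of_uu K hK hQ hcen hZ
    (SLZ.mul_mem (SLZ.mul_mem hh uu_one_mem_SLZ) (SLZ.inv_mem hh)) h1
  exact ⟨n, hn⟩

include hK hQ hcen in
/-- (4b') -/
lemma sq_eq_one_of_lower_zero (hZ : Subgroup.center GG ≤ K) {g : SL(2, ℝ)} {h : SL(2, Af)}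
    (hh : h ∈ SLZ) (hk : ((g, h) : GG) ∈ K) (hg : g 1 0 = 0) : g 1 1 ^ 2 = 1 := by
  obtain ⟨n, hn⟩ := sq_int K hK hQ hcen hZ hh hk hg
  have hk' := K.inv_mem hk
  rw [Prod.inv_mk] at hk'
  obtain ⟨m, hm⟩ := sq_int K hK hQ hcen hZ (SLZ.inv_mem hh) hk' (by rw [inv_10, hg, neg_zero])
  rw [inv_00] at hm
  have hdet := det_eq g
  rw [hg, mul_zero, sub_zero] at hdet
  have h1 : (n : ℝ) * m = 1 := by
    rw [← hn, ← hm, ← mul_pow, hdet, one_pow]
  have h2 : n * m = 1 := by exact_mod_cast h1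
  have h3 : (0 : ℝ) ≤ m := by rw [← hm]; positivity
  have h4 : 0 ≤ m := by exact_mod_cast h3
  rcases Int.eq_one_or_neg_one_of_mul_eq_one' h2 with ⟨_, h5⟩ | ⟨_, h5⟩
  · rw [hm, h5]; simp
  · omega

/-- minus the identity in `SL(2, ℝ)` -/
def negR : SL(2, ℝ) := ⟨!![-1, 0; 0, -1], by simp [Matrix.det_fin_two_of]⟩

lemma negR_mem : ((negR, 1) : GG) ∈ Subgroup.center GG := by
  apply center_prod_mem
  · rw [mem_center_iff']
    exact ⟨rfl, rfl, rfl⟩
  · exact Subgroup.one_mem _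

include hK hQ hcen in
/-- (4d) -/
lemma mem_of_lower_zero (hZ : Subgroup.center GG ≤ K) {g : SL(2, ℝ)} {h : SL(2, Af)}
    (hh : h ∈ SLZ) (hk : ((g, h) : GG) ∈ K) (hg : g 1 0 = 0) :
    ∃ z ∈ Subgroup.center GG, ∃ γ, ((g, h) : GG) = z * H0 γ := by
  have hsq := sq_eq_one_of_lower_zero K hK hQ hcen hZ hh hk hg
  have hdet := det_eq g
  rw [hg, mul_zero, sub_zero] at hdet
  have h0 : (g 1 1 - 1) * (g 1 1 + 1) = 0 := by linear_combination hsq
  rcases mul_eq_zero.mp h0 with h1 | h1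
  · have h11 : g 1 1 = 1 := by linear_combination h1
    have h00 : g 0 0 = 1 := by rw [h11, mul_one] at hdet; exact hdet
    have hgu : g = uu (g 0 1) := sl2_ext h00 rfl hg h11
    rw [hgu] at hk ⊢
    obtain ⟨n, _, z, hz, hzn⟩ := integral_of_uu K hK hQ hcen hZ hh hk
    exact ⟨z, hz, _, hzn⟩
  · have h11 : g 1 1 = -1 := by linear_combination h1
    have h00 : g 0 0 = -1 := by rw [h11] at hdet; linear_combination -hdet
    have hgu : negR * g = uu (- g 0 1) := by
      apply sl2_ext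
      · rw [mul_00, h00, hg]; simp [negR]
      · rw [mul_01, h11]; simp [negR]
      · rw [mul_10, h00, hg]; simp [negR]
      · rw [mul_11, h11]; simp [negR]
    have hk' := K.mul_mem (hZ negR_mem) hk
    rw [Prod.mk_mul_mk, one_mul, hgu] at hk'
    obtain ⟨n, _, z, hz, hzn⟩ := integral_of_uu K hK hQ hcen hZ hh hk'
    refine ⟨((negR, 1) : GG)⁻¹ * z, Subgroup.mul_mem _ (Subgroup.inv_mem _ negR_mem) hz,
      uu (n : ℚ), ?_⟩
    rw [mul_assoc, ← hzn, ← hgu, eq_inv_mul_iff_mul_eq, Prod.mk_mul_mk, one_mul]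

lemma realSL_intSL_00 (a b c d : ℤ) (h : a * d - b * c = 1) :
    realSL (intSL a b c d h) 0 0 = (a : ℝ) := by
  change (((a : ℤ) : ℚ) : ℝ) = a
  push_cast; rfl

lemma realSL_intSL_01 (a b c d : ℤ) (h : a * d - b * c = 1) :
    realSL (intSL a b c d h) 0 1 = (b : ℝ) := by
  change (((b : ℤ) : ℚ) : ℝ) = b
  push_cast; rfl

lemma realSL_intSL_10 (a b c d : ℤ) (h : a * d - b * c = 1) :
    realSL (intSL a b c d h) 1 0 = (c : ℝ) := by
  change (((c : ℤ) : ℚ) : ℝ) = c
  push_cast; rfl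

lemma realSL_intSL_11 (a b c d : ℤ) (h : a * d - b * c = 1) :
    realSL (intSL a b c d h) 1 1 = (d : ℝ) := by
  change (((d : ℤ) : ℚ) : ℝ) = d
  push_cast; rfl

include hQ in
/-- right multiplication with an integral matrix -/
lemma mul_intSL_mem {g : SL(2, ℝ)} {h : SL(2, Af)} (hh : h ∈ SLZ) (hk : ((g, h) : GG) ∈ K)
    {x y z w : ℤ} (hdet : x * w - y * z = 1) :
    ∃ (g' : SL(2, ℝ)) (h' : SL(2, Af)), ((g', h') : GG) = (g, h) * H0 (intSL x y z w hdet) ∧
      h' ∈ SLZ ∧ ((g', h') : GG) ∈ K ∧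
      g' 1 0 = g 1 0 * x + g 1 1 * z ∧ g' 1 1 = g 1 0 * y + g 1 1 * w := by
  refine ⟨g * realSL (intSL x y z w hdet), h * diagSL (intSL x y z w hdet), rfl,
    SLZ.mul_mem hh (diagSL_intSL_mem _ _ _ _ _), K.mul_mem hk (hQ _), ?_, ?_⟩
  · rw [mul_10, realSL_intSL_00, realSL_intSL_10]
  · rw [mul_11, realSL_intSL_01, realSL_intSL_11]

include hQ in
lemma exists_bounded {g : SL(2, ℝ)} {h : SL(2, Af)} (hh : h ∈ SLZ) (hk : ((g, h) : GG) ∈ K)
    (hd : Dense (rowGroup (g 1 0) (g 1 1) : Set ℝ)) {ε : ℝ} (hε : 0 < ε) (hε1 : ε ≤ 1) :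
    ∃ (g' : SL(2, ℝ)) (h' : SL(2, Af)), ((g', h') : GG) ∈ K ∧ h' ∈ SLZ ∧
      (∀ i j, g' i j ∈ Set.Icc (-4 : ℝ) 4) ∧ |g' 1 0| ≤ ε ∧ |g' 1 1 - 2| ≤ ε := by
  obtain ⟨x, y, z, w, hdet, h1, h2⟩ := rows_dense hd hε
  obtain ⟨g₁, h₁, _, hh₁, hk₁, e10, e11⟩ := mul_intSL_mem K hQ hh hk hdet
  rw [← e10] at h1
  rw [← e11] at h2
  set m : ℤ := -⌊g₁ 0 1 / g₁ 1 1⌋ with hm
  have hk₂ := K.mul_mem (hQ (intSL 1 m 0 1 (by ring))) hk₁
  refine ⟨realSL (intSL 1 m 0 1 (by ring)) * g₁, diagSL (intSL 1 m 0 1 (by ring)) * h₁,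
    hk₂, SLZ.mul_mem (diagSL_intSL_mem _ _ _ _ _) hh₁, ?_, ?_, ?_⟩
  · have f10 : (realSL (intSL 1 m 0 1 (by ring)) * g₁) 1 0 = g₁ 1 0 := by
      rw [mul_10, realSL_intSL_10, realSL_intSL_11]; simp
    have f11 : (realSL (intSL 1 m 0 1 (by ring)) * g₁) 1 1 = g₁ 1 1 := by
      rw [mul_11, realSL_intSL_10, realSL_intSL_11]; simp
    have f01 : (realSL (intSL 1 m 0 1 (by ring)) * g₁) 0 1 = g₁ 0 1 + m * g₁ 1 1 := by
      rw [mul_01, realSL_intSL_00, realSL_intSL_01]; simp
    have hdet' := det_eq (realSL (intSL 1 m 0 1 (by ring)) * g₁)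
    rw [f10, f11] at hdet'
    set a := (realSL (intSL 1 m 0 1 (by ring)) * g₁) 0 0 with ha
    set b := (realSL (intSL 1 m 0 1 (by ring)) * g₁) 0 1 with hb
    rw [abs_lt] at h1 h2
    have hd1 : 1 < g₁ 1 1 := by linarith
    have hd3 : g₁ 1 1 < 3 := by linarith
    have hb0 : 0 ≤ b := by
      have h3 := Int.floor_le (g₁ 0 1 / g₁ 1 1)
      rw [le_div_iff₀ (by linarith)] at h3
      rw [f01, hm]
      push_cast
      linarith
    have hb1 : b < g₁ 1 1 := by
      have h3 := Int.lt_floor_add_one (g₁ 0 1 / g₁ 1 1)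
      rw [div_lt_iff₀ (by linarith)] at h3
      rw [f01, hm]
      push_cast
      linarith
    have ha1 : a ≤ 4 := by
      by_contra hcon
      push Not at hcon
      nlinarith
    have ha2 : -4 ≤ a := by
      by_contra hcon
      push Not at hcon
      nlinarith
    intro i j
    fin_cases i <;> fin_cases j
    · exact ⟨ha2, ha1⟩
    · exact ⟨by change -4 ≤ b; linarith, by change b ≤ 4; linarith⟩
    · change (realSL (intSL 1 m 0 1 (by ring)) * g₁) 1 0 ∈ _
      rw [f10]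
      exact ⟨by linarith, by linarith⟩
    · change (realSL (intSL 1 m 0 1 (by ring)) * g₁) 1 1 ∈ _
      rw [f11]
      exact ⟨by linarith, by linarith⟩
  · rw [mul_10, realSL_intSL_10, realSL_intSL_11]
    simpa using h1.le
  · rw [mul_11, realSL_intSL_10, realSL_intSL_11]
    simpa using h2.le

/-- the sets used in the compactness argument -/
def cset (K : Subgroup GG) (n : ℕ) : Set GG :=
  {k | k ∈ K ∧ k.2 ∈ SLZ ∧ (∀ i j, k.1 i j ∈ Set.Icc (-4 : ℝ) 4) ∧
    |k.1 1 0| ≤ 1 / ((n : ℝ) + 1) ∧ |k.1 1 1 - 2| ≤ 1 / ((n : ℝ) + 1)}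

include hK in
lemma isClosed_cset (n : ℕ) : IsClosed (cset K n) := by
  have e1 : IsClosed {k : GG | k ∈ K} := hK
  have e2 : IsClosed {k : GG | k.2 ∈ SLZ} :=
    (isCompact_SLZ.isClosed).preimage continuous_snd
  have e3 : IsClosed {k : GG | ∀ i j, k.1 i j ∈ Set.Icc (-4 : ℝ) 4} := by
    simp only [Set.ofPred_forall]
    exact isClosed_iInter (fun i => isClosed_iInter (fun j =>
      isClosed_Icc.preimage ((continuous_entry i j).comp continuous_fst)))
  have e4 : IsClosed {k : GG | |k.1 1 0| ≤ 1 / ((n : ℝ) + 1)} :=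
    isClosed_le (((continuous_entry 1 0).comp continuous_fst).abs) continuous_const
  have e5 : IsClosed {k : GG | |k.1 1 1 - 2| ≤ 1 / ((n : ℝ) + 1)} :=
    isClosed_le ((((continuous_entry 1 1).comp continuous_fst).sub continuous_const).abs)
      continuous_const
  exact e1.inter (e2.inter (e3.inter (e4.inter e5)))

include hK in
lemma isCompact_cset (n : ℕ) : IsCompact (cset K n) := by
  have h1 : IsCompact ({g : SL(2, ℝ) | ∀ i j, g i j ∈ Set.Icc (-4 : ℝ) 4} ×ˢ
      (SLZ : Set SL(2, Af))) := (isCompact_entries isCompact_Icc).prod isCompact_SLZ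
  refine h1.of_isClosed_subset (isClosed_cset K hK n) ?_
  rintro k ⟨_, h2, h3, _⟩
  exact ⟨h3, h2⟩

include hK hQ hcen in
/-- (4c) -/
lemma not_dense (hZ : Subgroup.center GG ≤ K) {g : SL(2, ℝ)} {h : SL(2, Af)} (hh : h ∈ SLZ)
    (hk : ((g, h) : GG) ∈ K) : ¬ Dense (rowGroup (g 1 0) (g 1 1) : Set ℝ) := by
  intro hd
  have hne : (⋂ n, cset K n).Nonempty := by
    apply IsCompact.nonempty_iInter_of_sequence_nonempty_isCompact_isClosed
    · rintro n k ⟨h1, h2, h3, h4, h5⟩
      have : 1 / (((n + 1 : ℕ) : ℝ) + 1) ≤ 1 / ((n : ℝ) + 1) := by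
        apply one_div_le_one_div_of_le
        · positivity
        · push_cast; linarith
      exact ⟨h1, h2, h3, h4.trans this, h5.trans this⟩
    · intro n
      have h6 : (1 : ℝ) / ((n : ℝ) + 1) ≤ 1 := by
        rw [div_le_one (by positivity)]
        have : (0 : ℝ) ≤ n := Nat.cast_nonneg n
        linarith
      obtain ⟨g', h', h1, h2, h3, h4, h5⟩ := exists_bounded K hQ hh hk hd
        (ε := 1 / ((n : ℝ) + 1)) (by positivity) h6
      exact ⟨(g', h'), h1, h2, h3, h4, h5⟩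
    · exact isCompact_cset K hK 0
    · exact isClosed_cset K hK
  obtain ⟨⟨g', h'⟩, hmem⟩ := hne
  rw [Set.mem_iInter] at hmem
  have hlim : Tendsto (fun n : ℕ => 1 / ((n : ℝ) + 1)) atTop (𝓝 0) :=
    tendsto_one_div_add_atTop_nhds_zero_nat
  have h10 : g' 1 0 = 0 := by
    have : |g' 1 0| ≤ 0 := ge_of_tendsto' hlim (fun n => (hmem n).2.2.2.1)
    exact abs_eq_zero.mp (le_antisymm this (abs_nonneg _))
  have h11 : g' 1 1 = 2 := by
    have : |g' 1 1 - 2| ≤ 0 := ge_of_tendsto' hlim (fun n => (hmem n).2.2.2.2)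
    have := abs_eq_zero.mp (le_antisymm this (abs_nonneg _))
    linarith
  have := sq_eq_one_of_lower_zero K hK hQ hcen hZ (hmem 0).2.1 (hmem 0).1 h10
  rw [h11] at this
  norm_num at this

include hK hQ hcen in
lemma mem_of_integral (hZ : Subgroup.center GG ≤ K) {g : SL(2, ℝ)} {h : SL(2, Af)}
    (hh : h ∈ SLZ) (hk : ((g, h) : GG) ∈ K) :
    ∃ z ∈ Subgroup.center GG, ∃ γ, ((g, h) : GG) = z * H0 γ := by
  rcases AddSubgroup.dense_or_cyclic (rowGroup (g 1 0) (g 1 1)) with hd | ⟨r, hr⟩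
  · exact absurd hd (not_dense K hK hQ hcen hZ hh hk)
  · have hcd : ¬ (g 1 0 = 0 ∧ g 1 1 = 0) := by
      rintro ⟨h1, h2⟩
      have := det_eq g
      rw [h1, h2] at this
      simp at this
    obtain ⟨x, y, z, w, hdet, h1⟩ := rows_cyclic hcd hr
    obtain ⟨g₁, h₁, e, hh₁, hk₁, e10, _⟩ := mul_intSL_mem K hQ hh hk hdet
    rw [← e10] at h1
    obtain ⟨c, hc, γ, hγ⟩ := mem_of_lower_zero K hK hQ hcen hZ hh₁ hk₁ h1
    refine ⟨c, hc, γ * (intSL x y z w hdet)⁻¹, ?_⟩
    rw [e] at hγ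
    rw [map_mul, map_inv, ← mul_assoc, ← hγ]
    group

include hK hQ in
/-- A closed subgroup which contains the center and the rational points is either everything or
is generated by the center and the rational points. -/
theorem top_or_rational (hZ : Subgroup.center GG ≤ K) (hne : K ≠ ⊤) {k : GG} (hk : k ∈ K) :
    ∃ z ∈ Subgroup.center GG, ∃ γ, k = z * H0 γ := by
  have hcen : ∀ n : SL(2, Af), ((1, n) : GG) ∈ K → n ∈ Subgroup.center SL(2, Af) :=
    fun n hn => top_or_central K hK hQ hne n hn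
  obtain ⟨g, h⟩ := k
  have hopen : IsOpen {h' : SL(2, Af) | h' * h ∈ SLZ} :=
    isOpen_SLZ.preimage (continuous_id.mul continuous_const)
  obtain ⟨γ, hγ⟩ := denseRange_diagSL.exists_mem_open hopen ⟨h⁻¹, by
    change h⁻¹ * h ∈ SLZ
    rw [inv_mul_cancel]
    exact SLZ.one_mem⟩
  have hk' := K.mul_mem (hQ γ) hk
  obtain ⟨z, hz, γ', h1⟩ := mem_of_integral K hK hQ hcen hZ (g := realSL γ * g)
    (h := diagSL γ * h) hγ hk'
  refine ⟨z, hz, γ⁻¹ * γ', ?_⟩
  have h2 : H0 γ * (g, h) = z * H0 γ' := h1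
  rw [map_mul, map_inv]
  rw [Subgroup.mem_center_iff] at hz
  rw [← mul_assoc, ← hz, mul_assoc, ← h2]
  group

end main

end Pool.Agent.Lib.MP_e825aa_al
end

section

set_option linter.unusedSimpArgs false

open Matrix Matrix.SpecialLinearGroup
open scoped MatrixGroups RestrictedProduct Uniformity
open Filter Topology

namespace Pool.Agent.Lib.MP_e825aa_al

/-- A locally compact second countable Hausdorff group is Polish. -/
theorem polishSpace_of_group (G : Type*) [Group G] [TopologicalSpace G] [IsTopologicalGroup G]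
    [LocallyCompactSpace G] [SecondCountableTopology G] [T2Space G] : PolishSpace G := by
  let : UniformSpace G := IsTopologicalGroup.rightUniformSpace G
  have : IsRightUniformGroup G := { uniformity_eq := rfl }
  have : CompleteSpace G := IsRightUniformGroup.completeSpace_of_weaklyLocallyCompactSpace
  have : (𝓤 G).IsCountablyGenerated := by
    rw [uniformity_eq_comap_nhds_one]
    infer_instance
  infer_instance

section inst
variable (R : Type*) [CommRing R] [TopologicalSpace R] [IsTopologicalRing R]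

instance secondCountable_SL [SecondCountableTopology R] : SecondCountableTopology SL(2, R) := by
  have : SecondCountableTopology (Matrix (Fin 2) (Fin 2) R) :=
    inferInstanceAs (SecondCountableTopology (Fin 2 → Fin 2 → R))
  exact (Topology.IsEmbedding.subtypeVal (p := fun A : Matrix (Fin 2) (Fin 2) R => A.det = 1)
    ).secondCountableTopology

theorem locallyCompact_SL [LocallyCompactSpace R] [T2Space R] : LocallyCompactSpace SL(2, R) := by
  have : LocallyCompactSpace (Matrix (Fin 2) (Fin 2) R) :=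
    inferInstanceAs (LocallyCompactSpace (Fin 2 → Fin 2 → R))
  have h : IsClosed {A : Matrix (Fin 2) (Fin 2) R | A.det = 1} :=
    isClosed_eq (Continuous.matrix_det continuous_id) continuous_const
  exact h.isClosedEmbedding_subtypeVal.locallyCompactSpace

end inst

instance lcGG : LocallyCompactSpace GG := by
  have := locallyCompact_SL ℝ
  have := locallyCompact_SL Af
  infer_instance

instance scGG : SecondCountableTopology GG := inferInstance
instance t2GG : T2Space GG := inferInstance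

instance closedCenter : IsClosed (Subgroup.center GG : Set GG) := by
  have : (Subgroup.center GG : Set GG) = ⋂ a : GG, {z | a * z = z * a} := by
    ext z
    rw [SetLike.mem_coe, Subgroup.mem_center_iff]
    simp
  rw [this]
  exact isClosed_iInter (fun a => isClosed_eq (continuous_const.mul continuous_id)
    (continuous_id.mul continuous_const))

/-- the adelic group modulo its center -/
abbrev PG : Type := GG ⧸ Subgroup.center GG

instance : LocallyCompactSpace PG := inferInstance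
instance : SecondCountableTopology PG := inferInstance
instance : IsTopologicalGroup PG := inferInstance
instance : T2Space PG := inferInstance

instance polishPG : PolishSpace PG := polishSpace_of_group PG

/-- the projection -/
noncomputable def pr : GG →* PG := QuotientGroup.mk' (Subgroup.center GG)

lemma pr_surj : Function.Surjective pr := QuotientGroup.mk'_surjective _

lemma continuous_pr : Continuous pr := continuous_quot_mk

lemma isOpenMap_pr : IsOpenMap pr := QuotientGroup.isOpenMap_coe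

lemma isQuotientMap_pr : Topology.IsQuotientMap pr := isOpenMap_pr.isQuotientMap continuous_pr pr_surj

lemma pr_eq_one_iff {x : GG} : pr x = 1 ↔ x ∈ Subgroup.center GG :=
  QuotientGroup.eq_one_iff x

lemma pr_eq_iff {x y : GG} : pr x = pr y ↔ ∃ z ∈ Subgroup.center GG, x = z * y := by
  constructor
  · intro h
    refine ⟨x * y⁻¹, ?_, by group⟩
    rw [← pr_eq_one_iff, map_mul, map_inv, h, mul_inv_cancel]
  · rintro ⟨z, hz, rfl⟩
    rw [map_mul, pr_eq_one_iff.mpr hz, one_mul]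

/-- the image of the rational points -/
noncomputable def HH : Subgroup PG := (pr.comp H0).range

lemma mem_HH {x : PG} : x ∈ HH ↔ ∃ γ, pr (H0 γ) = x := Iff.rfl

lemma central_rat {γ : SL(2, ℚ)} (h : realSL γ ∈ Subgroup.center SL(2, ℝ)) :
    H0 γ ∈ Subgroup.center GG := by
  rw [mem_center_iff'] at h
  simp only [realSL_apply] at h
  obtain ⟨h1, h2, h3⟩ := h
  have hc : γ 0 1 = 0 ∧ γ 1 0 = 0 ∧ γ 0 0 = γ 1 1 := by
    refine ⟨by exact_mod_cast h1, by exact_mod_cast h2, by exact_mod_cast h3⟩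
  rw [H0_apply, center_prod_iff, mem_center_iff', mem_center_iff']
  refine ⟨⟨h1, h2, h3⟩, ?_, ?_, ?_⟩
  · change diag (γ 0 1) = 0
    rw [hc.1, map_zero]
  · change diag (γ 1 0) = 0
    rw [hc.2.1, map_zero]
  · change diag (γ 0 0) = diag (γ 1 1)
    rw [hc.2.2]

lemma real_central_of_fin {γ : SL(2, ℚ)} (h : diagSL γ ∈ Subgroup.center SL(2, Af)) :
    realSL γ ∈ Subgroup.center SL(2, ℝ) := by
  rw [mem_center_iff'] at h
  obtain ⟨h1, h2, h3⟩ := h
  have e1 : diag (γ 0 1) = 0 := h1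
  have e2 : diag (γ 1 0) = 0 := h2
  have e3 : diag (γ 0 0) = diag (γ 1 1) := h3
  have hinj : Function.Injective diag := by
    intro a b hab
    have h2 : diag a ⟨2, Nat.prime_two⟩ = diag b ⟨2, Nat.prime_two⟩ := by rw [hab]
    have h3 : (a : ℚ_[2]) = (b : ℚ_[2]) := h2
    exact_mod_cast h3
  have c1 : γ 0 1 = 0 := hinj (e1.trans (map_zero diag).symm)
  have c2 : γ 1 0 = 0 := hinj (e2.trans (map_zero diag).symm)
  have c3 : γ 0 0 = γ 1 1 := hinj e3
  rw [mem_center_iff']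
  simp only [realSL_apply]
  rw [c1, c2, c3]
  simp

/-- faithfulness -/
lemma faithful_HH {x : PG} (hx : ∀ g : PG, g * x * g⁻¹ ∈ HH) : x = 1 := by
  have h1 : x ∈ HH := by
    have := hx 1
    rwa [one_mul, inv_one, mul_one] at this
  obtain ⟨γ, rfl⟩ := mem_HH.mp h1
  rw [pr_eq_one_iff]
  apply central_rat
  apply central_of_commutators
  intro m
  obtain ⟨γ', h2⟩ := mem_HH.mp (hx (pr (m, 1)))
  rw [← map_mul, ← map_inv, ← map_mul, eq_comm, pr_eq_iff] at h2
  obtain ⟨⟨z1, z2⟩, hz, h3⟩ := h2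
  rw [center_prod_iff] at hz
  have h4 : m * realSL γ * m⁻¹ = z1 * realSL γ' := congrArg Prod.fst h3
  have h5 : diagSL γ = z2 * diagSL γ' := by
    have : 1 * diagSL γ * 1⁻¹ = z2 * diagSL γ' := congrArg Prod.snd h3
    rwa [one_mul, inv_one, mul_one] at this
  have h6 : diagSL (γ * γ'⁻¹) ∈ Subgroup.center SL(2, Af) := by
    rw [map_mul, map_inv, h5, mul_inv_cancel_right]
    exact hz.2
  have h7 := Subgroup.inv_mem _ (real_central_of_fin h6)
  rw [h4, mul_assoc]
  refine Subgroup.mul_mem _ hz.1 ?_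
  rwa [map_mul, map_inv, _root_.mul_inv_rev, inv_inv] at h7

/-! ### `HH` is closed -/

lemma abs_cast_lt {n : ℤ} (h : |(n : ℝ)| < 1) : n = 0 := by
  have : |n| < 1 := by exact_mod_cast h
  exact Int.abs_lt_one_iff.mp this

lemma rat_integral {q : ℚ} (h : ∀ p : Nat.Primes, ‖(q : ℚ_[p.1])‖ ≤ 1) : ∃ n : ℤ, q = n := by
  by_cases hd : q.den = 1
  · exact ⟨q.num, (Rat.den_eq_one_iff q).mp hd |>.symm⟩
  · exfalso
    obtain ⟨p, hp, hpd⟩ := Nat.exists_prime_and_dvd hd
    have : Fact p.Prime := ⟨hp⟩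
    have h1 := h ⟨p, hp⟩
    change ‖(q : ℚ_[p])‖ ≤ 1 at h1
    have h2 := PadicInt.isUnit_den q h1
    rw [PadicInt.isUnit_iff] at h2
    have h3 : ‖((q.den : ℤ) : ℤ_[p])‖ < 1 := by
      rw [PadicInt.norm_int_lt_one_iff_dvd]
      exact_mod_cast hpd
    rw [Int.cast_natCast, h2] at h3
    exact lt_irrefl _ h3

lemma rat_small {q : ℚ} {e : ℝ} (he : e = 0 ∨ e = 1) {s : ℝ} (hs : s = 1 ∨ s = -1)
    (h : ∀ p : Nat.Primes, ‖(q : ℚ_[p.1])‖ ≤ 1) (hq : |s * (q : ℝ) - e| < 1) : s * (q : ℝ) = e := by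
  obtain ⟨n, rfl⟩ := rat_integral h
  obtain ⟨e', he'⟩ : ∃ e' : ℤ, e = e' := by
    rcases he with rfl | rfl
    · exact ⟨0, by simp⟩
    · exact ⟨1, by simp⟩
  obtain ⟨s', hs'⟩ : ∃ s' : ℤ, s = s' := by
    rcases hs with rfl | rfl
    · exact ⟨1, by simp⟩
    · exact ⟨-1, by simp⟩
  subst he' hs'
  have h2 : (((s' * n - e' : ℤ)) : ℝ) = s' * ((n : ℚ) : ℝ) - e' := by push_cast; ring
  rw [← h2] at hq
  have h3 := abs_cast_lt hq
  have h4 : (((s' * n - e' : ℤ)) : ℝ) = 0 := by rw [h3]; simp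
  rw [h2] at h4
  linarith

/-- a small neighbourhood of the identity -/
def UU : Set GG := {k | (|k.1 0 0 - 1| < 1 ∧ |k.1 0 1| < 1 ∧ |k.1 1 0| < 1 ∧ |k.1 1 1 - 1| < 1) ∧
  k.2 ∈ SLZ}

lemma isOpen_UU : IsOpen UU := by
  have h : ∀ i j, Continuous (fun k : GG => k.1 i j) := fun i j =>
    (continuous_entry i j).comp continuous_fst
  refine IsOpen.inter (IsOpen.inter ?_ (IsOpen.inter ?_ (IsOpen.inter ?_ ?_))) ?_
  · exact isOpen_lt ((h 0 0).sub continuous_const).abs continuous_const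
  · exact isOpen_lt (h 0 1).abs continuous_const
  · exact isOpen_lt (h 1 0).abs continuous_const
  · exact isOpen_lt ((h 1 1).sub continuous_const).abs continuous_const
  · exact isOpen_SLZ.preimage continuous_snd

lemma one_mem_UU : (1 : GG) ∈ UU := by
  refine ⟨⟨?_, ?_, ?_, ?_⟩, SLZ.one_mem⟩
  · change |(1 : SL(2, ℝ)) 0 0 - 1| < 1
    simp
  · change |(1 : SL(2, ℝ)) 0 1| < 1
    simp
  · change |(1 : SL(2, ℝ)) 1 0| < 1
    simp
  · change |(1 : SL(2, ℝ)) 1 1 - 1| < 1
    simp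

lemma center_norm {p : ℕ} [Fact p.Prime] {z : SL(2, ℚ_[p])}
    (hz : z ∈ Subgroup.center SL(2, ℚ_[p])) : ‖z 0 0‖ = 1 ∧ ‖z 1 1‖ = 1 := by
  rw [mem_center_iff'] at hz
  obtain ⟨h1, h2, h3⟩ := hz
  have hdet := det_eq z
  rw [h1, zero_mul, sub_zero, ← h3] at hdet
  have h4 : ‖z 0 0‖ * ‖z 0 0‖ = 1 := by rw [← norm_mul, hdet, norm_one]
  have h5 : ‖z 0 0‖ = 1 := by
    have h6 := norm_nonneg (z 0 0)
    nlinarith
  exact ⟨h5, by rw [← h3]; exact h5⟩

lemma entry_integral {γ : SL(2, ℚ)} {z : SL(2, Af)} (hz : z ∈ Subgroup.center SL(2, Af))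
    (h : z * diagSL γ ∈ SLZ) (i j : Fin 2) (p : Nat.Primes) : ‖((γ i j : ℚ) : ℚ_[p.1])‖ ≤ 1 := by
  rw [central_iff_evSL] at hz
  obtain ⟨n0, n1⟩ := center_norm (hz p)
  have hz' := mem_center_iff'.mp (hz p)
  obtain ⟨h01, h10, h0011⟩ := hz'
  have key : ∀ i j, ‖(evSL p z * evSL p (diagSL γ)) i j‖ ≤ 1 := by
    intro i j
    rw [← map_mul]
    exact h i j p
  have e : ∀ i j, evSL p (diagSL γ) i j = ((γ i j : ℚ) : ℚ_[p.1]) := fun i j => rfl
  fin_cases i <;> fin_cases j
  · have := key 0 0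
    rw [mul_00, h01, zero_mul, add_zero, norm_mul, n0, one_mul, e] at this
    exact this
  · have := key 0 1
    rw [mul_01, h01, zero_mul, add_zero, norm_mul, n0, one_mul, e] at this
    exact this
  · have := key 1 0
    rw [mul_10, h10, zero_mul, zero_add, norm_mul, n1, one_mul, e] at this
    exact this
  · have := key 1 1
    rw [mul_11, h10, zero_mul, zero_add, norm_mul, n1, one_mul, e] at this
    exact this

lemma central_of_small {γ : SL(2, ℚ)} {z : GG} (hz : z ∈ Subgroup.center GG)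
    (h : z * H0 γ ∈ UU) : H0 γ ∈ Subgroup.center GG := by
  obtain ⟨z1, z2⟩ := z
  rw [center_prod_iff] at hz
  obtain ⟨⟨h00, h01, h10, h11⟩, hf⟩ := h
  have hint := entry_integral hz.2 hf
  apply central_rat
  have hz1 := mem_center_iff'.mp hz.1
  obtain ⟨c01, c10, c⟩ := hz1
  have hdet := det_eq z1
  rw [c01, zero_mul, sub_zero, ← c] at hdet
  have hs : z1 0 0 = 1 ∨ z1 0 0 = -1 := by
    have h0 : (z1 0 0 - 1) * (z1 0 0 + 1) = 0 := by linear_combination hdet
    rcases mul_eq_zero.mp h0 with h1 | h1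
    · left; linear_combination h1
    · right; linear_combination h1
  have e00 : (z1 * realSL γ) 0 0 = z1 0 0 * ((γ 0 0 : ℚ) : ℝ) := by
    rw [mul_00, c01, realSL_apply]; ring
  have e01 : (z1 * realSL γ) 0 1 = z1 0 0 * ((γ 0 1 : ℚ) : ℝ) := by
    rw [mul_01, c01, realSL_apply]; ring
  have e10 : (z1 * realSL γ) 1 0 = z1 0 0 * ((γ 1 0 : ℚ) : ℝ) := by
    rw [mul_10, c10, realSL_apply γ 1 0, ← c]; ring
  have e11 : (z1 * realSL γ) 1 1 = z1 0 0 * ((γ 1 1 : ℚ) : ℝ) := by
    rw [mul_11, c10, realSL_apply γ 1 1, ← c]; ring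
  change |(z1 * realSL γ) 0 0 - 1| < 1 at h00
  change |(z1 * realSL γ) 0 1| < 1 at h01
  change |(z1 * realSL γ) 1 0| < 1 at h10
  change |(z1 * realSL γ) 1 1 - 1| < 1 at h11
  rw [e00] at h00
  rw [e01, ← sub_zero (z1 0 0 * _)] at h01
  rw [e10, ← sub_zero (z1 0 0 * _)] at h10
  rw [e11] at h11
  have r00 := rat_small (Or.inr rfl) hs (hint 0 0) h00
  have r01 := rat_small (Or.inl rfl) hs (hint 0 1) h01
  have r10 := rat_small (Or.inl rfl) hs (hint 1 0) h10
  have r11 := rat_small (Or.inr rfl) hs (hint 1 1) h11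
  have hone : z1 * realSL γ = 1 := by
    apply sl2_ext
    · rw [e00, r00, one_00]
    · rw [e01, r01, one_01]
    · rw [e10, r10, one_10]
    · rw [e11, r11, one_11]
  have : realSL γ = z1⁻¹ := by
    rw [eq_inv_iff_mul_eq_one, Subgroup.mem_center_iff.mp hz.1, hone]
  rw [this]
  exact Subgroup.inv_mem _ hz.1

instance discrete_HH : DiscreteTopology HH := by
  apply discreteTopology_of_isOpen_singleton_one
  have h1 : IsOpen (pr '' UU) := isOpenMap_pr _ isOpen_UU
  have h2 : ({1} : Set HH) = Subtype.val ⁻¹' (pr '' UU) := by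
    ext x
    constructor
    · intro hx
      rw [Set.mem_singleton_iff] at hx
      subst hx
      exact ⟨1, one_mem_UU, map_one pr⟩
    · rintro ⟨u, hu, hux⟩
      rw [Set.mem_singleton_iff]
      obtain ⟨γ, hγ⟩ := mem_HH.mp x.2
      rw [← hγ, pr_eq_iff] at hux
      obtain ⟨z, hz, rfl⟩ := hux
      have := central_of_small hz hu
      ext
      rw [← hγ, pr_eq_one_iff.mpr this]
      rfl
  rw [h2]
  exact h1.preimage continuous_subtype_val

lemma isClosed_HH : IsClosed (HH : Set PG) := Subgroup.isClosed_of_discrete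

/-! ### the minimal normal subgroups -/

/-- the subgroups `Mt p` -/
def Mt (p : Nat.Primes) : Subgroup GG where
  carrier := {k | k.1 ∈ Subgroup.center SL(2, ℝ) ∧
    ∀ q : Nat.Primes, q ≠ p → evSL q k.2 ∈ Subgroup.center SL(2, ℚ_[q.1])}
  one_mem' := ⟨Subgroup.one_mem _, fun q _ => by
    change evSL q 1 ∈ _
    rw [map_one]; exact Subgroup.one_mem _⟩
  mul_mem' := by
    rintro a b ⟨ha1, ha2⟩ ⟨hb1, hb2⟩
    refine ⟨Subgroup.mul_mem _ ha1 hb1, fun q hq => ?_⟩
    change evSL q (a.2 * b.2) ∈ _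
    rw [map_mul]
    exact Subgroup.mul_mem _ (ha2 q hq) (hb2 q hq)
  inv_mem' := by
    rintro a ⟨ha1, ha2⟩
    refine ⟨Subgroup.inv_mem _ ha1, fun q hq => ?_⟩
    change evSL q (a.2)⁻¹ ∈ _
    rw [map_inv]
    exact Subgroup.inv_mem _ (ha2 q hq)

lemma mem_Mt {p : Nat.Primes} {k : GG} : k ∈ Mt p ↔ k.1 ∈ Subgroup.center SL(2, ℝ) ∧
    ∀ q : Nat.Primes, q ≠ p → evSL q k.2 ∈ Subgroup.center SL(2, ℚ_[q.1]) := Iff.rfl

lemma isClosed_center_of {G : Type*} [Group G] [TopologicalSpace G] [IsTopologicalGroup G]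
    [T2Space G] : IsClosed (Subgroup.center G : Set G) := by
  have : (Subgroup.center G : Set G) = ⋂ a : G, {z | a * z = z * a} := by
    ext z
    rw [SetLike.mem_coe, Subgroup.mem_center_iff]
    simp
  rw [this]
  exact isClosed_iInter (fun a => isClosed_eq (continuous_const.mul continuous_id)
    (continuous_id.mul continuous_const))

lemma isClosed_Mt (p : Nat.Primes) : IsClosed (Mt p : Set GG) := by
  have : (Mt p : Set GG) = (Prod.fst ⁻¹' (Subgroup.center SL(2, ℝ) : Set SL(2, ℝ))) ∩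
      ⋂ q : Nat.Primes, ⋂ _ : q ≠ p, (fun k : GG => evSL q k.2) ⁻¹'
        (Subgroup.center SL(2, ℚ_[q.1]) : Set SL(2, ℚ_[q.1])) := by
    ext k
    simp only [Set.mem_inter_iff, Set.mem_preimage, Set.mem_iInter]
    rfl
  rw [this]
  refine (isClosed_center_of.preimage continuous_fst).inter ?_
  exact isClosed_iInter (fun q => isClosed_iInter (fun _ =>
    isClosed_center_of.preimage ((continuous_evSL q).comp continuous_snd)))

lemma normal_Mt (p : Nat.Primes) : (Mt p).Normal := by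
  constructor
  rintro k ⟨h1, h2⟩ g
  refine ⟨?_, fun q hq => ?_⟩
  · exact (inferInstance : (Subgroup.center SL(2, ℝ)).Normal).conj_mem _ h1 _
  · change evSL q (g.2 * k.2 * g.2⁻¹) ∈ _
    rw [map_mul, map_mul, map_inv]
    exact (inferInstance : (Subgroup.center SL(2, ℚ_[q.1])).Normal).conj_mem _ (h2 q hq) _

lemma center_le_Mt (p : Nat.Primes) : Subgroup.center GG ≤ Mt p := by
  rintro ⟨z1, z2⟩ hz
  rw [center_prod_iff] at hz
  exact ⟨hz.1, fun q _ => central_iff_evSL.mp hz.2 q⟩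

/-- embedding of `SL(2, ℚ_p)` -/
noncomputable def jj (p : Nat.Primes) : SL(2, ℚ_[p.1]) →* GG := (MonoidHom.inr _ _).comp (io p)

lemma jj_apply (p : Nat.Primes) (m : SL(2, ℚ_[p.1])) : jj p m = (1, io p m) := rfl

lemma jj_mem (p : Nat.Primes) (m : SL(2, ℚ_[p.1])) : jj p m ∈ Mt p := by
  refine ⟨Subgroup.one_mem _, fun q hq => ?_⟩
  change evSL q (io p m) ∈ _
  rw [ev_io_ne hq]
  exact Subgroup.one_mem _

lemma decomp {p : Nat.Primes} {k : GG} (hk : k ∈ Mt p) :
    ∃ z ∈ Subgroup.center GG, k = z * jj p (evSL p k.2) := by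
  obtain ⟨h1, h2⟩ := hk
  refine ⟨k * (jj p (evSL p k.2))⁻¹, ?_, by group⟩
  obtain ⟨g, h⟩ := k
  rw [jj_apply, Prod.inv_mk, Prod.mk_mul_mk, center_prod_iff]
  refine ⟨by rw [inv_one, mul_one]; exact h1, ?_⟩
  rw [central_iff_evSL]
  intro q
  rw [map_mul, map_inv]
  by_cases hq : q = p
  · subst hq
    rw [ev_io_same, mul_inv_cancel]
    exact Subgroup.one_mem _
  · rw [ev_io_ne hq, inv_one, mul_one]
    exact h2 q hq

/-- the minimal closed normal subgroups -/
noncomputable def MM (p : Nat.Primes) : Subgroup PG := (Mt p).map pr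

lemma mem_MM_iff {p : Nat.Primes} {k : GG} : pr k ∈ MM p ↔ k ∈ Mt p := by
  constructor
  · rintro ⟨k', hk', h⟩
    obtain ⟨z, hz, rfl⟩ := pr_eq_iff.mp h.symm
    exact Subgroup.mul_mem _ (center_le_Mt p hz) hk'
  · intro h
    exact ⟨k, h, rfl⟩

lemma isClosed_MM (p : Nat.Primes) : IsClosed (MM p : Set PG) := by
  rw [← isQuotientMap_pr.isClosed_preimage]
  have : pr ⁻¹' (MM p : Set PG) = (Mt p : Set GG) := by
    ext k
    exact mem_MM_iff
  rw [this]
  exact isClosed_Mt p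

lemma normal_MM (p : Nat.Primes) : (MM p).Normal := (normal_Mt p).map pr pr_surj

lemma uu_one_not_central {F : Type*} [Field F] : (uu 1 : SL(2, F)) ∉ Subgroup.center SL(2, F) := by
  rw [mem_center_iff']
  rintro ⟨h, _⟩
  exact one_ne_zero h

lemma jj_not_central (p : Nat.Primes) {m : SL(2, ℚ_[p.1])}
    (hm : m ∉ Subgroup.center SL(2, ℚ_[p.1])) : jj p m ∉ Subgroup.center GG := by
  intro h
  rw [jj_apply, center_prod_iff, central_iff_evSL] at h
  have := h.2 p
  rw [ev_io_same] at this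
  exact hm this

lemma MM_ne_bot (p : Nat.Primes) : MM p ≠ ⊥ := by
  intro h
  have h1 : pr (jj p (uu 1)) ∈ MM p := mem_MM_iff.mpr (jj_mem p _)
  rw [h, Subgroup.mem_bot, pr_eq_one_iff] at h1
  exact jj_not_central p uu_one_not_central h1

lemma MM_minimal (p : Nat.Primes) (N : Subgroup PG) (hN : N.Normal) (hle : N ≤ MM p)
    (hne : N ≠ ⊥) : N = MM p := by
  obtain ⟨x, hx, hx1⟩ := (Subgroup.bot_or_exists_ne_one N).resolve_left hne
  obtain ⟨k, rfl⟩ := pr_surj x
  have hkM : k ∈ Mt p := mem_MM_iff.mp (hle hx)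
  rw [Ne, pr_eq_one_iff] at hx1
  obtain ⟨z, hz, hkz⟩ := decomp hkM
  -- `evSL p k.2` is not central
  have hnc : evSL p k.2 ∉ Subgroup.center SL(2, ℚ_[p.1]) := by
    intro hc
    apply hx1
    rw [hkz]
    refine Subgroup.mul_mem _ hz ?_
    rw [jj_apply, center_prod_iff, central_iff_evSL]
    refine ⟨Subgroup.one_mem _, fun q => ?_⟩
    by_cases hq : q = p
    · subst hq
      rw [ev_io_same]
      exact hc
    · rw [ev_io_ne hq]
      exact Subgroup.one_mem _
  have htop : N.comap (pr.comp (jj p)) = ⊤ := by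
    have : (N.comap (pr.comp (jj p))).Normal := hN.comap _
    refine eq_top_of_commutators _ hnc (fun m => ?_)
    change pr (jj p (m * evSL p k.2 * m⁻¹ * (evSL p k.2)⁻¹)) ∈ N
    have h1 : jj p (m * evSL p k.2 * m⁻¹ * (evSL p k.2)⁻¹) =
        jj p m * k * (jj p m)⁻¹ * k⁻¹ := by
      rw [jj_apply, io_commutator, jj_apply]
      ext1
      · change 1 = 1 * k.1 * 1⁻¹ * k.1⁻¹
        group
      · rfl
    rw [h1, map_mul, map_mul, map_mul, map_inv, map_inv]
    exact N.mul_mem (hN.conj_mem _ hx _) (N.inv_mem hx)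
  apply le_antisymm hle
  rintro _ ⟨k', hk', rfl⟩
  obtain ⟨z', hz', hkz'⟩ := decomp hk'
  rw [hkz', map_mul, pr_eq_one_iff.mpr hz', one_mul]
  have : evSL p k'.2 ∈ N.comap (pr.comp (jj p)) := by rw [htop]; trivial
  exact this

lemma MM_injective : Function.Injective MM := by
  intro p q h
  by_contra hpq
  have h1 : pr (jj p (uu 1)) ∈ MM q := h ▸ mem_MM_iff.mpr (jj_mem p _)
  have h2 := (mem_MM_iff.mp h1).2 p hpq
  rw [jj_apply] at h2
  change evSL p (io p (uu 1)) ∈ _ at h2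
  rw [ev_io_same] at h2
  exact uu_one_not_central h2

/-! ### irreducibility -/

lemma jj_not_mem_HH (p : Nat.Primes) : pr (jj p (uu 1)) ∉ HH := by
  intro h
  obtain ⟨γ, hγ⟩ := mem_HH.mp h
  obtain ⟨⟨z1, z2⟩, hz, h1⟩ := pr_eq_iff.mp hγ
  rw [center_prod_iff] at hz
  have h2 : realSL γ = z1 * 1 := congrArg Prod.fst h1
  rw [mul_one] at h2
  have h3 : H0 γ ∈ Subgroup.center GG := central_rat (h2 ▸ hz.1)
  rw [pr_eq_one_iff.mpr h3, eq_comm, pr_eq_one_iff] at hγ
  exact jj_not_central p uu_one_not_central hγ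

lemma HH_ne_top : HH ≠ ⊤ := by
  intro h
  apply jj_not_mem_HH ⟨2, Nat.prime_two⟩
  rw [h]
  trivial

lemma HH_maximal (K : Subgroup PG) (hK : IsClosed (K : Set PG)) (hle : HH ≤ K) :
    K = HH ∨ K = ⊤ := by
  have hK' : IsClosed (K.comap pr : Set GG) := hK.preimage continuous_pr
  by_cases htop : K.comap pr = ⊤
  · right
    rw [eq_top_iff]
    intro x _
    obtain ⟨k, rfl⟩ := pr_surj x
    have : k ∈ K.comap pr := by rw [htop]; trivial
    exact this
  · left
    apply le_antisymm _ hle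
    intro x hx
    obtain ⟨k, rfl⟩ := pr_surj x
    have hk : k ∈ K.comap pr := hx
    obtain ⟨z, hz, γ, h⟩ := top_or_rational (K.comap pr) hK' (fun γ => hle ⟨γ, rfl⟩)
      (fun z hz => by
        change pr z ∈ K
        rw [pr_eq_one_iff.mpr hz]
        exact K.one_mem) htop hk
    refine ⟨γ, ?_⟩
    change pr (H0 γ) = pr k
    rw [h, map_mul, pr_eq_one_iff.mpr hz, one_mul]

end Pool.Agent.Lib.MP_e825aa_al
end
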