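import Mathlib

section

/-!
# Elementary matrices in `SL(2, R)`
-/

set_option linter.unusedSimpArgs false

open Matrix Matrix.SpecialLinearGroup
open scoped MatrixGroups commutatorElement

namespace Pool.Agent.Lib.MP_e825aa_al

variable {R : Type*} [CommRing R]

/-- upper elementary matrix -/
def uu (x : R) : SL(2, R) := ⟨!![1, x; 0, 1], by simp [Matrix.det_fin_two_of]⟩

/-- lower elementary matrix -/
def ll (x : R) : SL(2, R) := ⟨!![1, 0; x, 1], by simp [Matrix.det_fin_two_of]⟩

@[simp] lemma uu_coe (x : R) : ((uu x : SL(2, R)) : Matrix (Fin 2) (Fin 2) R) = !![1, x; 0, 1] :=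
  rfl

@[simp] lemma ll_coe (x : R) : ((ll x : SL(2, R)) : Matrix (Fin 2) (Fin 2) R) = !![1, 0; x, 1] :=
  rfl

lemma sl2_ext {g h : SL(2, R)} (h00 : g 0 0 = h 0 0) (h01 : g 0 1 = h 0 1) (h10 : g 1 0 = h 1 0)
    (h11 : g 1 1 = h 1 1) : g = h := by
  ext i j
  fin_cases i <;> fin_cases j <;> assumption

lemma det_eq (g : SL(2, R)) : g 0 0 * g 1 1 - g 0 1 * g 1 0 = 1 := by
  have := g.det_coe
  rwa [Matrix.det_fin_two] at this

lemma mul_00 (g h : SL(2, R)) : (g * h) 0 0 = g 0 0 * h 0 0 + g 0 1 * h 1 0 := by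
  simp [Matrix.mul_apply, Fin.sum_univ_two]
lemma mul_01 (g h : SL(2, R)) : (g * h) 0 1 = g 0 0 * h 0 1 + g 0 1 * h 1 1 := by
  simp [Matrix.mul_apply, Fin.sum_univ_two]
lemma mul_10 (g h : SL(2, R)) : (g * h) 1 0 = g 1 0 * h 0 0 + g 1 1 * h 1 0 := by
  simp [Matrix.mul_apply, Fin.sum_univ_two]
lemma mul_11 (g h : SL(2, R)) : (g * h) 1 1 = g 1 0 * h 0 1 + g 1 1 * h 1 1 := by
  simp [Matrix.mul_apply, Fin.sum_univ_two]

@[simp] lemma uu_00 (x : R) : uu x 0 0 = 1 := rfl
@[simp] lemma uu_01 (x : R) : uu x 0 1 = x := rfl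
@[simp] lemma uu_10 (x : R) : uu x 1 0 = 0 := rfl
@[simp] lemma uu_11 (x : R) : uu x 1 1 = 1 := rfl
@[simp] lemma ll_00 (x : R) : ll x 0 0 = 1 := rfl
@[simp] lemma ll_01 (x : R) : ll x 0 1 = 0 := rfl
@[simp] lemma ll_10 (x : R) : ll x 1 0 = x := rfl
@[simp] lemma ll_11 (x : R) : ll x 1 1 = 1 := rfl
@[simp] lemma one_00 : (1 : SL(2, R)) 0 0 = 1 := rfl
@[simp] lemma one_01 : (1 : SL(2, R)) 0 1 = 0 := rfl
@[simp] lemma one_10 : (1 : SL(2, R)) 1 0 = 0 := rfl
@[simp] lemma one_11 : (1 : SL(2, R)) 1 1 = 1 := rfl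

lemma inv_00 (g : SL(2, R)) : g⁻¹ 0 0 = g 1 1 := by
  simp [coe_inv, adjugate_fin_two]
lemma inv_01 (g : SL(2, R)) : g⁻¹ 0 1 = - g 0 1 := by
  simp [coe_inv, adjugate_fin_two]
lemma inv_10 (g : SL(2, R)) : g⁻¹ 1 0 = - g 1 0 := by
  simp [coe_inv, adjugate_fin_two]
lemma inv_11 (g : SL(2, R)) : g⁻¹ 1 1 = g 0 0 := by
  simp [coe_inv, adjugate_fin_two]

lemma uu_add (x y : R) : uu (x + y) = uu x * uu y := by
  apply sl2_ext <;> simp only [mul_00, mul_01, mul_10, mul_11, uu_00, uu_01, uu_10, uu_11] <;> ring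

lemma ll_add (x y : R) : ll (x + y) = ll x * ll y := by
  apply sl2_ext <;> simp only [mul_00, mul_01, mul_10, mul_11, ll_00, ll_01, ll_10, ll_11] <;> ring

@[simp] lemma uu_zero : uu (0 : R) = 1 := by
  apply sl2_ext <;> simp

@[simp] lemma ll_zero : ll (0 : R) = 1 := by
  apply sl2_ext <;> simp

lemma uu_neg (x : R) : uu (-x) = (uu x)⁻¹ := by
  rw [eq_inv_iff_mul_eq_one, ← uu_add]; simp

lemma ll_neg (x : R) : ll (-x) = (ll x)⁻¹ := by
  rw [eq_inv_iff_mul_eq_one, ← ll_add]; simp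

/-- the Weyl element -/
def ww : SL(2, R) := uu 1 * ll (-1) * uu 1

lemma ww_conj (x : R) : ww * uu x * ww⁻¹ = ll (-x) := by
  rw [mul_inv_eq_iff_eq_mul]
  apply sl2_ext <;> simp only [ww, mul_00, mul_01, mul_10, mul_11, ll_00, ll_01, ll_10, ll_11,
    uu_00, uu_01, uu_10, uu_11] <;> ring

/-- Stable range one. -/
def SR1 (R : Type*) [CommRing R] : Prop :=
  ∀ a c : R, IsCoprime a c → ∃ x, IsUnit (a + x * c)

lemma diag_mem (K : Subgroup SL(2, R)) (hu : ∀ x, uu x ∈ K) (hl : ∀ x, ll x ∈ K) (d : SL(2, R))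
    (h01 : d 0 1 = 0) (h10 : d 1 0 = 0) : d ∈ K := by
  have hdet := det_eq d
  rw [h01, zero_mul, sub_zero] at hdet
  have key : d = (uu (d 0 0) * ll (- d 1 1) * uu (d 0 0)) * (uu (-1) * ll 1 * uu (-1)) := by
    apply sl2_ext
    · simp only [mul_00, mul_01, mul_10, mul_11, ll_00, ll_01, ll_10, ll_11,
        uu_00, uu_01, uu_10, uu_11]
      linear_combination (d 0 0) * hdet
    · simp only [mul_00, mul_01, mul_10, mul_11, ll_00, ll_01, ll_10, ll_11,
        uu_00, uu_01, uu_10, uu_11, h01]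
      linear_combination -hdet
    · simp only [mul_00, mul_01, mul_10, mul_11, ll_00, ll_01, ll_10, ll_11,
        uu_00, uu_01, uu_10, uu_11, h10]
      linear_combination hdet
    · simp only [mul_00, mul_01, mul_10, mul_11, ll_00, ll_01, ll_10, ll_11,
        uu_00, uu_01, uu_10, uu_11]
      ring
  rw [key]
  exact mul_mem (mul_mem (mul_mem (hu _) (hl _)) (hu _)) (mul_mem (mul_mem (hu _) (hl _)) (hu _))

lemma unit_mem (K : Subgroup SL(2, R)) (hu : ∀ x, uu x ∈ K) (hl : ∀ x, ll x ∈ K) (g : SL(2, R))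
    (hg : IsUnit (g 0 0)) : g ∈ K := by
  obtain ⟨a, ha⟩ := hg
  have hdet := det_eq g
  rw [← ha] at hdet
  have hinv : (a : R) * (a⁻¹ : Rˣ) = 1 := a.mul_inv
  set b : R := ((a⁻¹ : Rˣ) : R) with hb
  have hd : ll (-(b * g 1 0)) * g * uu (-(b * g 0 1)) ∈ K := by
    apply diag_mem K hu hl
    · simp only [mul_00, mul_01, mul_10, mul_11, ll_00, ll_01, ll_10, ll_11,
        uu_00, uu_01, uu_10, uu_11, ← ha]
      linear_combination (- g 0 1) * hinv
    · simp only [mul_00, mul_01, mul_10, mul_11, ll_00, ll_01, ll_10, ll_11,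
        uu_00, uu_01, uu_10, uu_11, ← ha]
      linear_combination (- g 1 0) * hinv
  have key : g = ll (b * g 1 0) * (ll (-(b * g 1 0)) * g * uu (-(b * g 0 1))) *
      uu (b * g 0 1) := by
    rw [ll_neg, uu_neg]
    group
  rw [key]
  exact mul_mem (mul_mem (hl _) hd) (hu _)

/-- Over a ring with stable range one, `SL(2, R)` is generated by elementary matrices. -/
lemma eq_top_of_elementary (hR : SR1 R) (K : Subgroup SL(2, R)) (hu : ∀ x, uu x ∈ K)
    (hl : ∀ x, ll x ∈ K) : K = ⊤ := by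
  rw [eq_top_iff]
  intro g _
  have hcop : IsCoprime (g 0 0) (g 1 0) := ⟨g 1 1, - g 0 1, by linear_combination det_eq g⟩
  obtain ⟨x, hx⟩ := hR _ _ hcop
  have h1 : uu x * g ∈ K := by
    apply unit_mem K hu hl
    rw [mul_00, uu_00, uu_01, one_mul]
    exact hx
  exact (Subgroup.mul_mem_cancel_left K (hu x)).mp h1

lemma SR1_of_field (F : Type*) [Field F] : SR1 F := by
  intro a c h
  by_cases ha : a = 0
  · refine ⟨1, ?_⟩
    subst ha
    rw [isCoprime_zero_left] at h
    simpa using h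
  · exact ⟨0, by simpa using ha⟩

lemma mem_center_iff' {g : SL(2, R)} :
    g ∈ Subgroup.center SL(2, R) ↔ g 0 1 = 0 ∧ g 1 0 = 0 ∧ g 0 0 = g 1 1 := by
  constructor
  · intro h
    rw [mem_center_iff] at h
    obtain ⟨r, _, hr⟩ := h
    have h00 := congrFun (congrFun hr 0) 0
    have h01 := congrFun (congrFun hr 0) 1
    have h10 := congrFun (congrFun hr 1) 0
    have h11 := congrFun (congrFun hr 1) 1
    simp at h00 h01 h10 h11
    exact ⟨h01.symm, h10.symm, h00.symm.trans h11⟩
  · rintro ⟨h1, h2, h3⟩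
    rw [mem_center_iff]
    have hdet := det_eq g
    refine ⟨g 0 0, ?_, ?_⟩
    · simp only [Fintype.card_fin]
      rw [h1, ← h3] at hdet
      linear_combination hdet
    · ext i j
      fin_cases i <;> fin_cases j <;> simp [h1, h2, h3]

section field

variable {F : Type*} [Field F]

/-- A normal subgroup of `SL(2, F)` which is not central is everything. -/
lemma normal_eq_top (hF : ∃ a : F, a ≠ 0 ∧ a ^ 2 ≠ 1) (N : Subgroup SL(2, F)) [hN : N.Normal]
    (h : ¬ N ≤ Subgroup.center SL(2, F)) : N = ⊤ := by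
  have hs := Matrix.ProjectiveSpecialLinearGroup.rank_two_simple' hF
  obtain ⟨a, ha, ha2⟩ := hF
  have hperf := SL2.commutator_eq_top ha ha2
  set π := QuotientGroup.mk' (Subgroup.center SL(2, F)) with hπ
  have hsurj : Function.Surjective π := QuotientGroup.mk'_surjective _
  have hmapN : (N.map π).Normal := hN.map π hsurj
  have hmap : N.map π = ⊤ := by
    rcases hs.eq_bot_or_eq_top_of_normal (N.map π) hmapN with h1 | h1
    · exfalso
      apply h
      rw [Subgroup.map_eq_bot_iff] at h1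
      rwa [hπ, QuotientGroup.ker_mk'] at h1
    · exact h1
  have hsup : N ⊔ Subgroup.center SL(2, F) = ⊤ := by
    have := congrArg (Subgroup.comap π) hmap
    rwa [Subgroup.comap_map_eq, hπ, QuotientGroup.ker_mk', Subgroup.comap_top] at this
  have hcomm : commutator SL(2, F) ≤ N := by
    rw [commutator_def, Subgroup.commutator_le]
    intro g _ k _
    have hg : g ∈ N ⊔ Subgroup.center SL(2, F) := by rw [hsup]; trivial
    have hk : k ∈ N ⊔ Subgroup.center SL(2, F) := by rw [hsup]; trivial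
    rw [Subgroup.mem_sup_of_normal_right] at hg hk
    obtain ⟨n, hn, z, hz, rfl⟩ := hg
    obtain ⟨m, hm, y, hy, rfl⟩ := hk
    rw [Subgroup.mem_center_iff] at hz hy
    have : ⁅n * z, m * y⁆ = n * m * n⁻¹ * m⁻¹ := by
      rw [commutatorElement_def, _root_.mul_inv_rev, _root_.mul_inv_rev]
      calc n * z * (m * y) * (z⁻¹ * n⁻¹) * (y⁻¹ * m⁻¹)
          = n * (z * (m * y)) * z⁻¹ * n⁻¹ * (y⁻¹ * m⁻¹) := by group
        _ = n * ((m * y) * z) * z⁻¹ * n⁻¹ * (y⁻¹ * m⁻¹) := by rw [hz]
        _ = n * m * (y * n⁻¹) * (y⁻¹ * m⁻¹) := by group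
        _ = n * m * (n⁻¹ * y) * (y⁻¹ * m⁻¹) := by rw [hy]
        _ = n * m * n⁻¹ * m⁻¹ := by group
    rw [this]
    exact mul_mem (mul_mem (mul_mem hn hm) (inv_mem hn)) (inv_mem hm)
  rw [eq_top_iff, ← hperf]
  exact hcomm

/-- If `[m, h]` is central then conjugating `h` by `m` multiplies it with a sign. -/
lemma sign_of_commutator {m h : SL(2, F)}
    (H : m * h * m⁻¹ * h⁻¹ ∈ Subgroup.center SL(2, F)) :
    ∃ e : F, (e = 1 ∨ e = -1) ∧ ∀ i j, (m * h * m⁻¹) i j = e * h i j := by
  rw [mem_center_iff'] at H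
  set z := m * h * m⁻¹ * h⁻¹ with hz
  have hzh : m * h * m⁻¹ = z * h := by rw [hz]; group
  obtain ⟨h1, h2, h3⟩ := H
  have hdet := det_eq z
  rw [h1, ← h3] at hdet
  refine ⟨z 0 0, ?_, ?_⟩
  · have : (z 0 0 - 1) * (z 0 0 + 1) = 0 := by linear_combination hdet
    rcases mul_eq_zero.mp this with h | h
    · left; linear_combination h
    · right; linear_combination h
  · intro i j
    rw [hzh]
    fin_cases i <;> fin_cases j
    · simp only [Fin.zero_eta, mul_00, h1]; ring
    · simp only [Fin.zero_eta, Fin.mk_one, mul_01, h1]; ring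
    · simp only [Fin.zero_eta, Fin.mk_one, mul_10, h2, ← h3]; ring
    · simp only [Fin.mk_one, mul_11, h2, ← h3]; ring

/-- If all commutators `[m, h]` are central then `h` is central. -/
lemma central_of_commutators {h : SL(2, F)} [NeZero (2 : F)]
    (H : ∀ m : SL(2, F), m * h * m⁻¹ * h⁻¹ ∈ Subgroup.center SL(2, F)) :
    h ∈ Subgroup.center SL(2, F) := by
  have h2 : (2 : F) ≠ 0 := NeZero.ne _
  have hdet := det_eq h
  rw [mem_center_iff']
  have key1 : h 1 0 = 0 ∧ h 0 0 = h 1 1 := by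
    obtain ⟨e, he, hij⟩ := sign_of_commutator (H (uu 1))
    have h10 := hij 1 0
    have h11 := hij 1 1
    have h01 := hij 0 1
    have h00 := hij 0 0
    simp only [← uu_neg, mul_00, mul_01, mul_10, mul_11, uu_00, uu_01, uu_10, uu_11] at h10 h11 h01 h00
    rcases he with rfl | rfl
    · have hc : h 1 0 = 0 := by linear_combination h00
      refine ⟨hc, ?_⟩
      rw [hc] at h01
      linear_combination -h01
    · exfalso
      have hc : h 1 0 = 0 := by
        have : (2 : F) * h 1 0 = 0 := by linear_combination h10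
        exact (mul_eq_zero.mp this).resolve_left h2
      rw [hc] at h00 hdet
      have ha : h 0 0 = 0 := by
        have : (2 : F) * h 0 0 = 0 := by linear_combination h00
        exact (mul_eq_zero.mp this).resolve_left h2
      rw [ha] at hdet
      simp at hdet
  obtain ⟨hc, had⟩ := key1
  refine ⟨?_, hc, had⟩
  obtain ⟨e, he, hij⟩ := sign_of_commutator (H (ll 1))
  have h10 := hij 1 0
  have h00 := hij 0 0
  simp only [← ll_neg, mul_00, mul_01, mul_10, mul_11, ll_00, ll_01, ll_10, ll_11] at h10 h00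
  rcases he with rfl | rfl
  · linear_combination -h00
  · exfalso
    rw [hc, ← had] at hdet h10
    have hb : h 0 1 = 0 := by
      linear_combination -h10
    rw [hb] at h00
    have ha : h 0 0 = 0 := by
      have : (2 : F) * h 0 0 = 0 := by linear_combination h00
      exact (mul_eq_zero.mp this).resolve_left h2
    rw [ha] at hdet
    simp at hdet

/-- A normal subgroup containing all commutators with a noncentral element is everything. -/
lemma eq_top_of_commutators [CharZero F] (N : Subgroup SL(2, F)) [hN : N.Normal] {h : SL(2, F)}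
    (hc : h ∉ Subgroup.center SL(2, F)) (H : ∀ m : SL(2, F), m * h * m⁻¹ * h⁻¹ ∈ N) : N = ⊤ := by
  apply normal_eq_top ⟨2, two_ne_zero, by norm_num⟩
  intro hle
  exact hc (central_of_commutators (fun m => hle (H m)))

end field

end Pool.Agent.Lib.MP_e825aa_al
end

section

/-!
# The ring of finite adeles of `ℚ`
-/

open scoped RestrictedProduct
open Filter Topology

namespace Pool.Agent.Lib.MP_e825aa_al

instance factPrime (p : Nat.Primes) : Fact (p.1.Prime) := ⟨p.2⟩

/-- the finite adeles of `ℚ` -/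
abbrev Af : Type := Πʳ p : Nat.Primes, [ℚ_[p.1], PadicInt.subring p.1]

lemma isOpen_subring (p : ℕ) [Fact p.Prime] : IsOpen (PadicInt.subring p : Set ℚ_[p]) := by
  have : (PadicInt.subring p : Set ℚ_[p]) = Metric.closedBall 0 1 := by
    ext x
    simp
  rw [this]
  exact IsUltrametricDist.isOpen_closedBall _ one_ne_zero

instance factOpen : Fact (∀ p : Nat.Primes, IsOpen (PadicInt.subring p.1 : Set ℚ_[p.1])) :=
  ⟨fun p => isOpen_subring p.1⟩

instance compactSubring (p : ℕ) [Fact p.Prime] : CompactSpace (PadicInt.subring p) :=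
  inferInstanceAs (CompactSpace ℤ_[p])

noncomputable example : CommRing Af := inferInstance
example : IsTopologicalRing Af := inferInstance
example : T2Space Af := inferInstance
example : LocallyCompactSpace Af := inferInstance

/-- evaluation at a prime -/
noncomputable def ev (p : Nat.Primes) : Af →+* ℚ_[p.1] :=
  RestrictedProduct.evalRingHom (fun p : Nat.Primes => ℚ_[p.1]) p

@[simp] lemma ev_apply (p : Nat.Primes) (x : Af) : ev p x = x p := rfl

lemma continuous_ev (p : Nat.Primes) : Continuous (fun x : Af => x p) :=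
  RestrictedProduct.continuous_eval p

/-- The integral adeles. -/
def Zhat : Subring Af where
  carrier := {x | ∀ p, ‖x p‖ ≤ 1}
  zero_mem' := by
    intro p
    simp
  one_mem' := by
    intro p
    simp
  add_mem' := by
    intro x y hx hy p
    exact (PadicInt.subring p.1).add_mem (hx p) (hy p)
  mul_mem' := by
    intro x y hx hy p
    exact (PadicInt.subring p.1).mul_mem (hx p) (hy p)
  neg_mem' := by
    intro x hx p
    exact (PadicInt.subring p.1).neg_mem (hx p)

lemma mem_Zhat {x : Af} : x ∈ Zhat ↔ ∀ p, ‖x p‖ ≤ 1 := Iff.rfl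

lemma isOpen_Zhat : IsOpen (Zhat : Set Af) :=
  RestrictedProduct.isOpen_forall_mem (fun p => isOpen_subring p.1)

lemma range_structureMap_eq : Set.range (RestrictedProduct.structureMap
    (fun p : Nat.Primes => ℚ_[p.1]) (fun p => (PadicInt.subring p.1 : Set ℚ_[p.1])) cofinite) =
    (Zhat : Set Af) := by
  rw [RestrictedProduct.range_structureMap]
  rfl

lemma isCompact_Zhat : IsCompact (Zhat : Set Af) := by
  rw [← range_structureMap_eq]
  have h : ∀ p : Nat.Primes, CompactSpace (PadicInt.subring p.1 : Set ℚ_[p.1]) :=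
    fun p => compactSubring p.1
  exact isCompact_range RestrictedProduct.isEmbedding_structureMap.continuous

lemma norm_pow_le_of_dvd {p : ℕ} [Fact p.Prime] {n N : ℕ} (h : p ^ n ∣ N) :
    ‖(N : ℚ_[p])‖ ≤ (p : ℝ) ^ (-n : ℤ) := by
  obtain ⟨M, rfl⟩ := h
  push_cast
  rw [norm_mul, Padic.norm_p_pow]
  have h1 : ‖(M : ℚ_[p])‖ ≤ 1 := by
    have := Padic.norm_int_le_one (p := p) (M : ℤ)
    simpa using this
  have h2 : (0 : ℝ) ≤ (p : ℝ) ^ (-n : ℤ) := by positivity
  nlinarith

/-- the structure map -/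
abbrev sm : ((p : Nat.Primes) → (PadicInt.subring p.1 : Set ℚ_[p.1])) → Af :=
  RestrictedProduct.structureMap
    (fun p : Nat.Primes => ℚ_[p.1]) (fun p => (PadicInt.subring p.1 : Set ℚ_[p.1])) cofinite

/-- zero -/
noncomputable def zeroInt : (p : Nat.Primes) → (PadicInt.subring p.1 : Set ℚ_[p.1]) :=
  fun p => ⟨0, (PadicInt.subring p.1).zero_mem⟩

lemma sm_zeroInt : sm zeroInt = 0 := rfl

lemma nhds_sm_eq : 𝓝 (sm zeroInt) = Filter.map sm (𝓝 zeroInt) := by
  have := RestrictedProduct.nhds_eq_map_structureMap (R := fun p : Nat.Primes => ℚ_[p.1])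
    (A := fun p => (PadicInt.subring p.1 : Set ℚ_[p.1])) (fun p => isOpen_subring p.1) zeroInt
  exact this

lemma nhds_zero_eq : 𝓝 (0 : Af) = Filter.map sm (𝓝 zeroInt) :=
  (congrArg 𝓝 sm_zeroInt).symm.trans nhds_sm_eq

lemma exists_exponent (p : ℕ) [Fact p.Prime] (t : Set (PadicInt.subring p : Set ℚ_[p]))
    (ht : t ∈ 𝓝 (⟨0, (PadicInt.subring p).zero_mem⟩ : (PadicInt.subring p : Set ℚ_[p]))) :
    ∃ n : ℕ, ∀ x : (PadicInt.subring p : Set ℚ_[p]),
      ‖(x : ℚ_[p])‖ ≤ (p : ℝ) ^ (-n : ℤ) → x ∈ t := by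
  rw [mem_nhds_subtype] at ht
  obtain ⟨u, hu, hut⟩ := ht
  rw [Metric.mem_nhds_iff] at hu
  obtain ⟨ε, hε, hball⟩ := hu
  have hp1 : (1 : ℝ) < p := by exact_mod_cast (Fact.out : p.Prime).one_lt
  obtain ⟨n, hn⟩ := exists_pow_lt_of_lt_one hε (inv_lt_one_of_one_lt₀ hp1)
  refine ⟨n, fun x hx => hut ?_⟩
  apply hball
  rw [Metric.mem_ball]
  refine lt_of_le_of_lt ?_ hn
  rw [dist_zero_right, inv_pow]
  rw [zpow_neg, zpow_natCast] at hx
  exact hx

/-- The sets `N * Zhat` form a basis of neighbourhoods of zero. -/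
lemma exists_level {W : Set Af} (hW : W ∈ 𝓝 (0 : Af)) :
    ∃ N : ℕ, N ≠ 0 ∧ ∀ x : Af, (∀ p, ‖x p‖ ≤ ‖(N : ℚ_[p.1])‖) → x ∈ W := by
  rw [nhds_zero_eq, Filter.mem_map, nhds_pi, Filter.mem_pi] at hW
  obtain ⟨I, hI, t, ht, hsub⟩ := hW
  choose n hn using fun p : Nat.Primes => exists_exponent p.1 (t p) (ht p)
  have hI' : ∀ s : Finset Nat.Primes, (∏ q ∈ s, q.1 ^ n q) ≠ 0 := by
    intro s
    rw [Finset.prod_ne_zero_iff]
    intro q _
    exact pow_ne_zero _ q.2.ne_zero
  refine ⟨∏ q ∈ hI.toFinset, q.1 ^ n q, hI' _, ?_⟩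
  intro x hx
  have hxZ : x ∈ Zhat := by
    intro p
    refine (hx p).trans ?_
    have := Padic.norm_int_le_one (p := p.1) ((∏ q ∈ hI.toFinset, q.1 ^ n q : ℕ) : ℤ)
    rwa [Int.cast_natCast] at this
  have hxr : x ∈ Set.range sm := by
    rw [range_structureMap_eq]
    exact hxZ
  obtain ⟨y, rfl⟩ := hxr
  apply hsub
  intro p hp
  apply hn
  refine (hx p).trans ?_
  apply norm_pow_le_of_dvd
  exact Finset.dvd_prod_of_mem (fun q : Nat.Primes => q.1 ^ n q) (hI.mem_toFinset.mpr hp)

/-- The diagonal embedding of `ℚ`, as a function. -/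
noncomputable def diagFun (q : ℚ) : Af :=
  ⟨fun p => (q : ℚ_[p.1]), by
    rw [Filter.eventually_cofinite]
    have hfin : {n : ℕ | n ∣ q.den}.Finite := by
      have : {n : ℕ | n ∣ q.den} = (q.den.divisors : Set ℕ) := by
        ext n
        simp [q.den_nz]
      rw [this]
      exact q.den.divisors.finite_toSet
    refine Set.Finite.subset (hfin.preimage
      (f := fun p : Nat.Primes => p.1) (Subtype.val_injective.injOn)) ?_
    intro p hp
    by_contra hcon
    exact hp (Padic.norm_rat_le_one hcon)⟩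

lemma diagFun_apply (q : ℚ) (p : Nat.Primes) : diagFun q p = (q : ℚ_[p.1]) := rfl

lemma add_apply (x y : Af) (p : Nat.Primes) : (x + y) p = x p + y p := rfl
lemma mul_apply (x y : Af) (p : Nat.Primes) : (x * y) p = x p * y p := rfl
lemma sub_apply (x y : Af) (p : Nat.Primes) : (x - y) p = x p - y p := rfl
lemma neg_apply (x : Af) (p : Nat.Primes) : (-x) p = - x p := rfl
@[simp] lemma zero_apply (p : Nat.Primes) : (0 : Af) p = 0 := rfl
@[simp] lemma one_apply (p : Nat.Primes) : (1 : Af) p = 1 := rfl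

/-- The diagonal embedding of `ℚ`. -/
noncomputable def diag : ℚ →+* Af where
  toFun q := diagFun q
  map_one' := by ext p; rw [diagFun_apply]; simp
  map_mul' x y := by ext p; rw [mul_apply]; simp only [diagFun_apply]; simp
  map_zero' := by ext p; rw [diagFun_apply]; simp
  map_add' x y := by ext p; rw [add_apply]; simp only [diagFun_apply]; simp

@[simp] lemma diag_apply (q : ℚ) (p : Nat.Primes) : diag q p = (q : ℚ_[p.1]) := rfl

lemma norm_prime_ne {p l : ℕ} [Fact p.Prime] [Fact l.Prime] (h : l ≠ p) : ‖(p : ℚ_[l])‖ = 1 := by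
  rw [Padic.norm_natCast_eq_one_iff]
  exact (Nat.coprime_primes Fact.out Fact.out).mpr h

lemma approx_one (p : ℕ) [Fact p.Prime] (x : ℚ_[p]) :
    ∃ q : ℚ, ‖x - q‖ ≤ 1 ∧ ∀ (l : ℕ) [Fact l.Prime], l ≠ p → ‖(q : ℚ_[l])‖ ≤ 1 := by
  have hp1 : (1 : ℝ) < p := by exact_mod_cast (Fact.out : p.Prime).one_lt
  have hp0 : (p : ℚ_[p]) ≠ 0 := by exact_mod_cast (Fact.out : p.Prime).ne_zero
  obtain ⟨n, hn⟩ := pow_unbounded_of_one_lt ‖x‖ hp1
  have hy : ‖(p : ℚ_[p]) ^ n * x‖ ≤ 1 := by
    rw [norm_mul, Padic.norm_p_pow, zpow_neg, zpow_natCast]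
    have : (0 : ℝ) < (p : ℝ) ^ n := by positivity
    rw [inv_mul_le_iff₀ this, mul_one]
    exact hn.le
  let y : ℤ_[p] := ⟨(p : ℚ_[p]) ^ n * x, hy⟩
  have hspec := PadicInt.appr_spec n y
  rw [← PadicInt.norm_le_pow_iff_mem_span_pow] at hspec
  set a : ℕ := PadicInt.appr y n with ha
  have hspec' : ‖(p : ℚ_[p]) ^ n * x - a‖ ≤ (p : ℝ) ^ (-n : ℤ) := by
    have : ‖((y - (a : ℤ_[p]) : ℤ_[p]) : ℚ_[p])‖ ≤ (p : ℝ) ^ (-n : ℤ) := hspec
    rwa [PadicInt.coe_sub, PadicInt.coe_natCast] at this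
  refine ⟨(a : ℚ) / (p : ℚ) ^ n, ?_, ?_⟩
  · have hx : x - (((a : ℚ) / (p : ℚ) ^ n : ℚ) : ℚ_[p]) =
        ((p : ℚ_[p]) ^ n)⁻¹ * ((p : ℚ_[p]) ^ n * x - a) := by
      push_cast
      field_simp
    rw [hx, norm_mul, norm_inv, Padic.norm_p_pow, zpow_neg, inv_inv]
    rw [zpow_neg] at hspec'
    have : (0 : ℝ) < (p : ℝ) ^ (n : ℤ) := by positivity
    calc _ ≤ (p : ℝ) ^ (n : ℤ) * ((p : ℝ) ^ (n : ℤ))⁻¹ := by gcongr
      _ = 1 := mul_inv_cancel₀ this.ne'
  · intro l _ hl
    push_cast
    rw [norm_div, norm_pow, norm_prime_ne hl, one_pow, div_one]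
    have := Padic.norm_int_le_one (p := l) (a : ℤ)
    simpa using this

/-- `A_f = ℚ + Zhat`. -/
lemma exists_rat_sub_mem (x : Af) : ∃ q : ℚ, x - diag q ∈ Zhat := by
  have hfin : {p : Nat.Primes | ¬ ‖x p‖ ≤ 1}.Finite := x.2
  obtain ⟨S, hS⟩ := hfin.exists_finset_coe
  have hS' : ∀ p, p ∉ S → ‖x p‖ ≤ 1 := by
    intro p hp
    by_contra hcon
    apply hp
    have : p ∈ (S : Set Nat.Primes) := by rw [hS]; exact hcon
    exact this
  clear hfin hS
  induction S using Finset.induction_on generalizing x with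
  | empty => exact ⟨0, by simpa [mem_Zhat] using hS'⟩
  | insert p S hp ih =>
    obtain ⟨q, hq1, hq2⟩ := approx_one p.1 (x p)
    obtain ⟨r, hr⟩ := ih (x - diag q) (by
      intro l hl
      by_cases hlp : l = p
      · subst hlp
        exact hq1
      · have h1 : ‖x l‖ ≤ 1 := hS' l (by simp [hlp, hl])
        have h2 : ‖(q : ℚ_[l.1])‖ ≤ 1 := hq2 l.1 (fun h => hlp (Subtype.ext h))
        exact (PadicInt.subring l.1).sub_mem h1 h2)
    refine ⟨q + r, ?_⟩
    rw [map_add, ← sub_sub]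
    exact hr

/-- Approximation of a finite adele by a rational number, with level `N`. -/
lemma exists_rat_approx (x : Af) {N : ℕ} (hN : N ≠ 0) :
    ∃ q : ℚ, ∀ p, ‖(x - diag q) p‖ ≤ ‖(N : ℚ_[p.1])‖ := by
  have hN' : (N : ℚ) ≠ 0 := by exact_mod_cast hN
  obtain ⟨q, hq⟩ := exists_rat_sub_mem (diag ((N : ℚ)⁻¹) * x)
  refine ⟨N * q, fun p => ?_⟩
  have h1 : (x - diag (N * q)) = diag (N : ℚ) * (diag ((N : ℚ)⁻¹) * x - diag q) := by
    rw [mul_sub, ← mul_assoc, ← map_mul, mul_inv_cancel₀ hN', map_one, one_mul, map_mul]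
  rw [h1]
  have h2 : (diag (N : ℚ) * (diag ((N : ℚ)⁻¹) * x - diag q)) p =
    (N : ℚ_[p.1]) * (diag ((N : ℚ)⁻¹) * x - diag q) p := by
    rw [mul_apply, diag_apply, Rat.cast_natCast]
  rw [h2, norm_mul]
  have h3 := hq p
  have h4 : 0 ≤ ‖(N : ℚ_[p.1])‖ := norm_nonneg _
  nlinarith

/-- A neighbourhood of an arbitrary point contains `x + N * Zhat`. -/
lemma exists_level_at {W : Set Af} {x : Af} (hW : W ∈ 𝓝 x) :
    ∃ N : ℕ, N ≠ 0 ∧ ∀ y : Af, (∀ p, ‖(x - y) p‖ ≤ ‖(N : ℚ_[p.1])‖) → y ∈ W := by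
  have h1 : (fun z : Af => x - z) ⁻¹' W ∈ 𝓝 (0 : Af) := by
    apply ContinuousAt.preimage_mem_nhds
    · exact (continuous_const.sub continuous_id).continuousAt
    · rw [sub_zero]; exact hW
  obtain ⟨N, hN, h⟩ := exists_level h1
  refine ⟨N, hN, fun y hy => ?_⟩
  have := h (x - y) hy
  rwa [Set.mem_preimage, sub_sub_cancel] at this

/-- `ℚ` is dense in the finite adeles. -/
lemma denseRange_diag : DenseRange diag := by
  intro x
  rw [mem_closure_iff_nhds]
  intro W hW
  obtain ⟨N, hN, h⟩ := exists_level_at hW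
  obtain ⟨q, hq⟩ := exists_rat_approx x hN
  exact ⟨diag q, h _ hq, q, rfl⟩

lemma isOpenEmbedding_sm : IsOpenEmbedding sm :=
  RestrictedProduct.isOpenEmbedding_structureMap (fun p => isOpen_subring p.1)

instance secondCountable_Af : SecondCountableTopology Af := by
  have hemb : ∀ q : ℚ, IsOpenEmbedding (fun y => diag q + sm y) := fun q =>
    (Homeomorph.addLeft (diag q)).isOpenEmbedding.comp isOpenEmbedding_sm
  have h2 : ∀ q : ℚ, SecondCountableTopology (Set.range (fun y => diag q + sm y)) := fun q =>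
    (hemb q).isEmbedding.toHomeomorph.symm.secondCountableTopology
  refine TopologicalSpace.secondCountableTopology_of_countable_cover
    (U := fun q : ℚ => Set.range (fun y => diag q + sm y)) (fun q => (hemb q).isOpen_range) ?_
  rw [Set.eq_univ_iff_forall]
  intro x
  obtain ⟨q, hq⟩ := exists_rat_sub_mem x
  rw [Set.mem_iUnion]
  refine ⟨q, ?_⟩
  have hxr : x - diag q ∈ Set.range sm := by
    rw [range_structureMap_eq]
    exact hq
  obtain ⟨y, hy⟩ := hxr
  exact ⟨y, by simp only [hy]; ring⟩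

lemma norm_add_choice {p : ℕ} [Fact p.Prime] (a c : ℚ_[p]) :
    ‖a + (if ‖c‖ ≤ ‖a‖ then 0 else 1) * c‖ = max ‖a‖ ‖c‖ := by
  split_ifs with h
  · rw [zero_mul, add_zero, max_eq_left h]
  · push Not at h
    rw [one_mul, max_eq_right h.le]
    rw [IsUltrametricDist.norm_add_eq_max_of_norm_ne_norm h.ne, max_eq_right h.le]

/-- The finite adeles have stable range one. -/
lemma SR1_Af : SR1 Af := by
  classical
  intro a c hac
  obtain ⟨u, v, huv⟩ := hac
  have huv' : ∀ p, u p * a p + v p * c p = 1 := by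
    intro p
    have := congrArg (fun x : Af => x p) huv
    exact this
  let x : Af := ⟨fun p => if ‖c p‖ ≤ ‖a p‖ then 0 else 1, by
    refine Filter.Eventually.of_forall (fun p => ?_)
    show ‖(if ‖c p‖ ≤ ‖a p‖ then (0 : ℚ_[p.1]) else 1)‖ ≤ 1
    split_ifs <;> simp⟩
  have hx : ∀ p, ‖(a + x * c) p‖ = max ‖a p‖ ‖c p‖ := fun p => norm_add_choice (a p) (c p)
  refine ⟨x, ?_⟩
  apply RestrictedProduct.isUnit_of_eventually_isUnit
  · intro p
    rw [isUnit_iff_ne_zero, ← norm_ne_zero_iff, hx]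
    intro h0
    have ha : ‖a p‖ = 0 := le_antisymm (by rw [← h0]; exact le_max_left _ _) (norm_nonneg _)
    have hc : ‖c p‖ = 0 := le_antisymm (by rw [← h0]; exact le_max_right _ _) (norm_nonneg _)
    rw [norm_eq_zero] at ha hc
    have := huv' p
    rw [ha, hc] at this
    simp at this
  · filter_upwards [a.2, c.2, u.2, v.2] with p ha hc hu hv
    have ha' : ‖a p‖ ≤ 1 := ha
    have hc' : ‖c p‖ ≤ 1 := hc
    have hu' : ‖u p‖ ≤ 1 := hu
    have hv' : ‖v p‖ ≤ 1 := hv
    have hmem : ‖(a + x * c) p‖ ≤ 1 := by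
      rw [hx]
      exact max_le ha' hc'
    refine ⟨hmem, ?_⟩
    have h1 : ‖(a + x * c) p‖ = 1 := by
      apply le_antisymm hmem
      rw [hx]
      have h2 : ‖u p * a p + v p * c p‖ ≤ max ‖u p * a p‖ ‖v p * c p‖ :=
        IsUltrametricDist.norm_add_le_max _ _
      rw [huv' p, norm_one, norm_mul, norm_mul] at h2
      refine h2.trans (max_le_max ?_ ?_)
      · exact mul_le_of_le_one_left (norm_nonneg _) hu'
      · exact mul_le_of_le_one_left (norm_nonneg _) hv'
    exact (PadicInt.isUnit_iff (z := (⟨(a + x * c) p, hmem⟩ : ℤ_[p.1]))).mpr h1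

open Classical in
/-- the finite adele supported at `p` with value `z` -/
noncomputable def sg (p : Nat.Primes) (z : ℚ_[p.1]) : Af :=
  RestrictedProduct.single (fun p : Nat.Primes => PadicInt.subring p.1) p z

lemma sg_same (p : Nat.Primes) (z : ℚ_[p.1]) : sg p z p = z := by
  classical
  exact RestrictedProduct.single_eq_same _ _ _

lemma sg_ne {p q : Nat.Primes} (h : q ≠ p) (z : ℚ_[p.1]) : sg p z q = 0 := by
  classical
  exact RestrictedProduct.single_eq_of_ne _ _ h

/-- A closed subgroup of `ℝ × A_f` containing the diagonal `ℚ` and `ℚ_p` is everything. -/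
lemma closed_eq_top (X : AddSubgroup (ℝ × Af)) (hX : IsClosed (X : Set (ℝ × Af)))
    (hq : ∀ q : ℚ, ((q : ℝ), diag q) ∈ X) (p : Nat.Primes)
    (hp : ∀ z : ℚ_[p.1], ((0 : ℝ), sg p z) ∈ X) : X = ⊤ := by
  rw [eq_top_iff]
  rintro ⟨x, y⟩ _
  have : (x, y) ∈ closure (X : Set (ℝ × Af)) := by
    rw [mem_closure_iff_nhds]
    intro W hW
    rw [nhds_prod_eq, Filter.mem_prod_iff] at hW
    obtain ⟨U, hU, V, hV, hUV⟩ := hW
    rw [Metric.mem_nhds_iff] at hU
    obtain ⟨ε, hε, hball⟩ := hU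
    obtain ⟨N, hN, h⟩ := exists_level_at hV
    obtain ⟨q₀, hq₀⟩ := exists_rat_approx y hN
    have hp1 : (1 : ℝ) < p.1 := by exact_mod_cast p.2.one_lt
    have hN0 : (0 : ℝ) < N := by exact_mod_cast Nat.pos_of_ne_zero hN
    obtain ⟨k, hk⟩ := pow_unbounded_of_one_lt ((N : ℝ) / ε) hp1
    have hpk : (0 : ℝ) < (p.1 : ℝ) ^ k := by positivity
    set t : ℝ := x - q₀ with ht
    set m : ℤ := ⌊t * (p.1 : ℝ) ^ k / N⌋ with hm
    set q₁ : ℚ := (N : ℚ) * m / (p.1 : ℚ) ^ k with hq₁
    have hq₁t : |(q₁ : ℝ) - t| < ε := by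
      have h1 : (m : ℝ) ≤ t * (p.1 : ℝ) ^ k / N := Int.floor_le _
      have h2 : t * (p.1 : ℝ) ^ k / N < m + 1 := Int.lt_floor_add_one _
      have h3 : (q₁ : ℝ) = N * m / (p.1 : ℝ) ^ k := by rw [hq₁]; push_cast; ring
      rw [le_div_iff₀ hN0] at h1
      rw [div_lt_iff₀ hN0] at h2
      rw [div_lt_iff₀ hε] at hk
      have h4 : (q₁ : ℝ) * (p.1 : ℝ) ^ k = N * m := by
        rw [h3, div_mul_cancel₀ _ hpk.ne']
      rw [abs_lt]
      constructor
      · by_contra hcon
        push Not at hcon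
        nlinarith
      · by_contra hcon
        push Not at hcon
        nlinarith
    refine ⟨((q₀ + q₁ : ℚ), diag (q₀ + q₁) + sg p (-q₁)), ?_, ?_⟩
    · apply hUV
      refine ⟨hball ?_, h _ ?_⟩
      · rw [Metric.mem_ball, Real.dist_eq]
        have : (((q₀ + q₁ : ℚ) : ℝ)) - x = (q₁ : ℝ) - t := by rw [ht]; push_cast; ring
        rw [this]
        exact hq₁t
      · intro l
        by_cases hl : l = p
        · subst hl
          have h5 : (y - (diag (q₀ + q₁) + sg l (-(q₁ : ℚ_[l.1])))) l = (y - diag q₀) l := by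
            rw [sub_apply, sub_apply, add_apply, sg_same, diag_apply, diag_apply]
            push_cast
            ring
          rw [h5]
          exact hq₀ l
        · have h5 : (y - (diag (q₀ + q₁) + sg p (-(q₁ : ℚ_[p.1])))) l =
              (y - diag q₀) l - (q₁ : ℚ_[l.1]) := by
            rw [sub_apply, sub_apply, add_apply, sg_ne hl, diag_apply, diag_apply]
            push_cast
            ring
          rw [h5]
          have h6 : ‖(q₁ : ℚ_[l.1])‖ ≤ ‖(N : ℚ_[l.1])‖ := by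
            rw [hq₁]
            push_cast
            rw [norm_div, norm_pow, norm_prime_ne (fun h => hl (Subtype.ext h)), one_pow, div_one,
              norm_mul]
            exact mul_le_of_le_one_right (norm_nonneg _) (Padic.norm_int_le_one m)
          rw [sub_eq_add_neg]
          refine (IsUltrametricDist.norm_add_le_max _ _).trans (max_le (hq₀ l) ?_)
          rw [norm_neg]
          exact h6
    · have h7 := X.add_mem (hq (q₀ + q₁)) (hp (-(q₁ : ℚ_[p.1])))
      rw [Prod.mk_add_mk, add_zero] at h7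
      exact h7
  rwa [hX.closure_eq] at this

end Pool.Agent.Lib.MP_e825aa_al
end

section

/-!
# `SL(2)` over the finite adeles
-/

set_option linter.unusedSimpArgs false

open Matrix Matrix.SpecialLinearGroup
open scoped MatrixGroups RestrictedProduct
open Filter Topology

namespace Pool.Agent.Lib.MP_e825aa_al

/-! ### Topology -/

section top

variable {R : Type*} [CommRing R] [TopologicalSpace R]

lemma continuous_entry (i j : Fin 2) : Continuous (fun g : SL(2, R) => g i j) :=
  (continuous_apply_apply i j).comp continuous_subtype_val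

lemma continuous_sl2_iff {X : Type*} [TopologicalSpace X] {f : X → SL(2, R)}
    (h : ∀ i j, Continuous (fun x => f x i j)) : Continuous f := by
  exact IsInducing.subtypeVal.continuous_iff.mpr (continuous_matrix h)

lemma continuous_uu [IsTopologicalRing R] : Continuous (uu : R → SL(2, R)) := by
  apply continuous_sl2_iff
  intro i j
  fin_cases i <;> fin_cases j
  · exact continuous_const
  · exact continuous_id
  · exact continuous_const
  · exact continuous_const

lemma continuous_ll [IsTopologicalRing R] : Continuous (ll : R → SL(2, R)) := by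
  apply continuous_sl2_iff
  intro i j
  fin_cases i <;> fin_cases j
  · exact continuous_const
  · exact continuous_const
  · exact continuous_id
  · exact continuous_const

lemma isCompact_entries [IsTopologicalRing R] [T1Space R] {C : Set R} (hC : IsCompact C) :
    IsCompact {g : SL(2, R) | ∀ i j, g i j ∈ C} := by
  have h1 : IsCompact {M : Matrix (Fin 2) (Fin 2) R | ∀ i j, M i j ∈ C} := by
    have h2 : IsCompact (Set.pi Set.univ (fun _ : Fin 2 => Set.pi Set.univ (fun _ : Fin 2 => C))) :=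
      isCompact_univ_pi (fun _ => isCompact_univ_pi (fun _ => hC))
    have h3 : {M : Matrix (Fin 2) (Fin 2) R | ∀ i j, M i j ∈ C} =
        (Set.pi Set.univ (fun _ : Fin 2 => Set.pi Set.univ (fun _ : Fin 2 => C))) := by
      ext M
      exact ⟨fun h i _ j _ => h i j, fun h i j => h i trivial j trivial⟩
    rw [h3]
    exact h2
  exact (Matrix.SpecialLinearGroup.isClosedEmbedding_val).isCompact_preimage h1

end top

/-! ### Evaluation and embedding -/

/-- evaluation at a prime -/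
noncomputable def evSL (p : Nat.Primes) : SL(2, Af) →* SL(2, ℚ_[p.1]) :=
  SpecialLinearGroup.map (ev p)

lemma evSL_apply (p : Nat.Primes) (g : SL(2, Af)) (i j : Fin 2) : evSL p g i j = (g i j) p := rfl

lemma evSL_ext {g h : SL(2, Af)} (H : ∀ p, evSL p g = evSL p h) : g = h := by
  ext i j p
  have := congrArg (fun k : SL(2, ℚ_[p.1]) => k i j) (H p)
  exact this

lemma continuous_evSL (p : Nat.Primes) : Continuous (evSL p) := by
  apply continuous_sl2_iff
  intro i j
  exact (continuous_ev p).comp (continuous_entry i j)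

/-- Build an element of `SL(2, A_f)` from its components. -/
noncomputable def mkSL (f : ∀ p : Nat.Primes, SL(2, ℚ_[p.1]))
    (hf : ∀ i j, ∀ᶠ p in cofinite, f p i j ∈ (PadicInt.subring p.1 : Set ℚ_[p.1])) :
    SL(2, Af) :=
  ⟨Matrix.of (fun i j => (⟨fun p => f p i j, hf i j⟩ : Af)), by
    rw [Matrix.det_fin_two]
    ext p
    exact det_eq (f p)⟩

lemma evSL_mkSL (f : ∀ p : Nat.Primes, SL(2, ℚ_[p.1]))
    (hf : ∀ i j, ∀ᶠ p in cofinite, f p i j ∈ (PadicInt.subring p.1 : Set ℚ_[p.1]))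
    (p : Nat.Primes) : evSL p (mkSL f hf) = f p := by
  ext i j
  rfl

/-- embedding of a factor -/
noncomputable def ioFun (p : Nat.Primes) (g : SL(2, ℚ_[p.1])) : SL(2, Af) :=
  mkSL (Pi.mulSingle p g) (by
    intro i j
    have : ∀ᶠ q : Nat.Primes in cofinite, q ≠ p := by
      rw [Filter.eventually_cofinite]
      simp
    filter_upwards [this] with q hq
    rw [Pi.mulSingle_eq_of_ne hq]
    fin_cases i <;> fin_cases j <;>
    simp)

lemma evSL_io_same (p : Nat.Primes) (g : SL(2, ℚ_[p.1])) : evSL p (ioFun p g) = g :=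
  (evSL_mkSL _ _ p).trans (Pi.mulSingle_eq_same (M := fun p : Nat.Primes => SL(2, ℚ_[p.1])) p g)

lemma evSL_io_ne {p q : Nat.Primes} (h : q ≠ p) (g : SL(2, ℚ_[p.1])) : evSL q (ioFun p g) = 1 :=
  (evSL_mkSL _ _ q).trans
    (Pi.mulSingle_eq_of_ne (M := fun p : Nat.Primes => SL(2, ℚ_[p.1])) h g)

/-- embedding of a factor, as a homomorphism -/
noncomputable def io (p : Nat.Primes) : SL(2, ℚ_[p.1]) →* SL(2, Af) where
  toFun := ioFun p
  map_one' := by
    apply evSL_ext
    intro q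
    by_cases h : q = p
    · subst h
      rw [evSL_io_same, map_one]
    · rw [evSL_io_ne h, map_one]
  map_mul' x y := by
    apply evSL_ext
    intro q
    by_cases h : q = p
    · subst h
      rw [map_mul, evSL_io_same, evSL_io_same, evSL_io_same]
    · rw [map_mul, evSL_io_ne h, evSL_io_ne h, evSL_io_ne h, mul_one]

lemma ev_io_same (p : Nat.Primes) (g : SL(2, ℚ_[p.1])) : evSL p (io p g) = g := evSL_io_same p g

lemma ev_io_ne {p q : Nat.Primes} (h : q ≠ p) (g : SL(2, ℚ_[p.1])) : evSL q (io p g) = 1 :=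
  evSL_io_ne h g

lemma evSL_uu (p : Nat.Primes) (x : Af) : evSL p (uu x) = uu (x p) := by
  apply sl2_ext <;> rfl

lemma io_uu (p : Nat.Primes) (z : ℚ_[p.1]) : io p (uu z) = uu (sg p z) := by
  apply evSL_ext
  intro q
  by_cases h : q = p
  · subst h
    rw [ev_io_same, evSL_uu, sg_same]
  · rw [ev_io_ne h, evSL_uu, sg_ne h, uu_zero]

lemma io_commutator (p : Nat.Primes) (m : SL(2, ℚ_[p.1])) (n : SL(2, Af)) :
    io p (m * evSL p n * m⁻¹ * (evSL p n)⁻¹) = io p m * n * (io p m)⁻¹ * n⁻¹ := by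
  apply evSL_ext
  intro q
  by_cases h : q = p
  · subst h
    simp only [ev_io_same, map_mul, map_inv]
  · simp only [ev_io_ne h, map_mul, map_inv]
    group

lemma central_iff_evSL {n : SL(2, Af)} :
    n ∈ Subgroup.center SL(2, Af) ↔ ∀ p, evSL p n ∈ Subgroup.center SL(2, ℚ_[p.1]) := by
  simp only [mem_center_iff']
  constructor
  · rintro ⟨h1, h2, h3⟩ p
    refine ⟨?_, ?_, ?_⟩
    · rw [evSL_apply, h1]; rfl
    · rw [evSL_apply, h2]; rfl
    · rw [evSL_apply, evSL_apply, h3]
  · intro h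
    refine ⟨?_, ?_, ?_⟩
    · ext p; exact (h p).1
    · ext p; exact (h p).2.1
    · ext p; exact (h p).2.2

/-- The integral subgroup. -/
def SLZ : Subgroup SL(2, Af) where
  carrier := {g | ∀ i j, g i j ∈ (Zhat : Set Af)}
  one_mem' := by
    intro i j
    fin_cases i <;> fin_cases j
    · exact Zhat.one_mem
    · exact Zhat.zero_mem
    · exact Zhat.zero_mem
    · exact Zhat.one_mem
  mul_mem' := by
    intro a b ha hb i j
    have : (a * b) i j = a i 0 * b 0 j + a i 1 * b 1 j := by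
      simp [Matrix.mul_apply, Fin.sum_univ_two]
    rw [this]
    exact Zhat.add_mem (Zhat.mul_mem (ha _ _) (hb _ _)) (Zhat.mul_mem (ha _ _) (hb _ _))
  inv_mem' := by
    intro a ha i j
    fin_cases i <;> fin_cases j
    · simp only [Fin.zero_eta, Fin.mk_one, inv_00]; exact ha _ _
    · simp only [Fin.zero_eta, Fin.mk_one, inv_01]; exact Zhat.neg_mem (ha _ _)
    · simp only [Fin.zero_eta, Fin.mk_one, inv_10]; exact Zhat.neg_mem (ha _ _)
    · simp only [Fin.zero_eta, Fin.mk_one, inv_11]; exact ha _ _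

lemma isOpen_SLZ : IsOpen (SLZ : Set SL(2, Af)) := by
  have : (SLZ : Set SL(2, Af)) =
      ⋂ i : Fin 2, ⋂ j : Fin 2, (fun g : SL(2, Af) => g i j) ⁻¹' (Zhat : Set Af) := by
    ext g
    simp only [Set.mem_iInter, Set.mem_preimage]
    rfl
  rw [this]
  exact isOpen_iInter_of_finite (fun i => isOpen_iInter_of_finite
    (fun j => isOpen_Zhat.preimage (continuous_entry i j)))

lemma isCompact_SLZ : IsCompact (SLZ : Set SL(2, Af)) :=
  isCompact_entries isCompact_Zhat

/-- rational points in `SL(2, A_f)` -/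
noncomputable def diagSL : SL(2, ℚ) →* SL(2, Af) := SpecialLinearGroup.map diag

lemma diagSL_uu (q : ℚ) : diagSL (uu q) = uu (diag q) := by
  apply sl2_ext
  · change diag 1 = 1; exact map_one _
  · rfl
  · change diag 0 = 0; exact map_zero _
  · change diag 1 = 1; exact map_one _

lemma diagSL_ll (q : ℚ) : diagSL (ll q) = ll (diag q) := by
  apply sl2_ext
  · change diag 1 = 1; exact map_one _
  · change diag 0 = 0; exact map_zero _
  · rfl
  · change diag 1 = 1; exact map_one _

/-- A closed subgroup of `SL(2, A_f)` containing the rational points is everything. -/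
lemma closed_SL_eq_top (K : Subgroup SL(2, Af)) (hK : IsClosed (K : Set SL(2, Af)))
    (h : ∀ γ, diagSL γ ∈ K) : K = ⊤ := by
  apply eq_top_of_elementary SR1_Af
  · intro x
    have hcl : IsClosed {x : Af | uu x ∈ K} := hK.preimage continuous_uu
    have : Set.range diag ⊆ {x : Af | uu x ∈ K} := by
      rintro _ ⟨q, rfl⟩
      change uu (diag q) ∈ K
      rw [← diagSL_uu]
      exact h _
    have h2 := closure_minimal this hcl
    rw [denseRange_diag.closure_range] at h2
    exact h2 (Set.mem_univ x)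
  · intro x
    have hcl : IsClosed {x : Af | ll x ∈ K} := hK.preimage continuous_ll
    have : Set.range diag ⊆ {x : Af | ll x ∈ K} := by
      rintro _ ⟨q, rfl⟩
      change ll (diag q) ∈ K
      rw [← diagSL_ll]
      exact h _
    have h2 := closure_minimal this hcl
    rw [denseRange_diag.closure_range] at h2
    exact h2 (Set.mem_univ x)

lemma denseRange_diagSL : DenseRange diagSL := by
  have h1 : (diagSL.range.topologicalClosure) = ⊤ := by
    apply closed_SL_eq_top
    · exact Subgroup.isClosed_topologicalClosure _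
    · intro γ
      exact Subgroup.le_topologicalClosure _ ⟨γ, rfl⟩
  intro x
  have h2 : x ∈ (diagSL.range.topologicalClosure : Set SL(2, Af)) := by
    rw [h1]; trivial
  rw [Subgroup.topologicalClosure_coe] at h2
  exact h2

end Pool.Agent.Lib.MP_e825aa_al
end
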